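import Pool.Agent.MP_826def_gt.BD.Spec

/-!
The geometry of real projective space.
-/

namespace Pool.Agent.MP_826def_gt.BD

open Set Topology Pool.Agent.MP_826def_gt.MU Pool.Agent.MP_826def_gt.D59

noncomputable section

theorem iso_of_cov {S B : Type} [TopologicalSpace S] [CompactSpace S] [TopologicalSpace B]
    [T2Space B] {σ : Bun B} (D : Cov S σ) : σ.Iso (dual σ) := by
  have hq : IsQuotientMap D.q :=
    D.q.continuous.isClosedMap.isQuotientMap D.q.continuous D.surj
  let s : B → S := Function.surjInv D.surj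
  have hs : ∀ b, D.q (s b) = b := Function.surjInv_eq D.surj
  let U : S → σ.W →L[ℂ] (σ.W →L[ℂ] ℂ) := fun t => (D.l t).smulRight (D.l t)
  let V : S → (σ.W →L[ℂ] ℂ) →L[ℂ] σ.W := fun t =>
    (ContinuousLinearMap.apply ℂ ℂ (D.u t)).smulRight (D.u t)
  have hU : Continuous U := continuous_clm_apply.2 fun w =>
    (D.l.continuous.clm_apply continuous_const).smul D.l.continuous
  have hV : Continuous V := continuous_clm_apply.2 fun φ =>
    (φ.continuous.comp D.u.continuous).smul D.u.continuous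
  have eU : (fun b => U (s b)) ∘ D.q = U := funext fun t => by
    rcases D.fib t (s (D.q t)) (hs _).symm with e | e
    · show (D.l _).smulRight (D.l _) = _
      rw [e.2]
    · show (D.l _).smulRight (D.l _) = _
      rw [e.2]
      refine ContinuousLinearMap.ext fun w => ?_
      show (-D.l t) w • (-D.l t) = D.l t w • D.l t
      rw [neg_apply, neg_smul_neg]
  have eV : (fun b => V (s b)) ∘ D.q = V := funext fun t => by
    refine ContinuousLinearMap.ext fun φ => ?_
    show φ (D.u _) • D.u _ = φ (D.u t) • D.u t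
    rcases D.fib t (s (D.q t)) (hs _).symm with e | e
    · rw [e.1]
    · rw [e.1, map_neg, neg_smul_neg]
  refine ⟨⟨fun b => U (s b), hq.continuous_iff.2 (by rw [eU]; exact hU)⟩,
    ⟨fun b => V (s b), hq.continuous_iff.2 (by rw [eV]; exact hV)⟩, fun b => ?_⟩
  have hp : σ.p b = (D.l (s b)).smulRight (D.u (s b)) := by rw [← D.pq, hs]
  refine ⟨ContinuousLinearMap.ext fun w => ?_, ContinuousLinearMap.ext fun φ =>
    ContinuousLinearMap.ext fun y => ?_⟩
  · show (D.l (s b) w • D.l (s b)) (D.u (s b)) • D.u (s b) = σ.p b w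
    rw [hp, smul_apply, D.lu, smul_eq_mul, mul_one]
    rfl
  · show (D.l (s b) (φ (D.u (s b)) • D.u (s b)) • D.l (s b)) y = φ (σ.p b y)
    rw [hp, ContinuousLinearMap.smulRight_apply, map_smul, map_smul, D.lu,
      smul_apply]
    simp only [smul_eq_mul]
    ring

variable {N m : ℕ}

/-- The unit sphere in the span of the first `m` basis vectors. -/
def Sm (N m : ℕ) : Type := {u : Fin N → ℂ // ‖u‖ = 1 ∧ ∀ i : Fin N, m ≤ i → u i = 0}

instance : TopologicalSpace (Sm N m) := instTopologicalSpaceSubtype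

instance : CompactSpace (Sm N m) := by
  refine isCompact_iff_compactSpace.1
    (?_ : IsCompact {u : Fin N → ℂ | ‖u‖ = 1 ∧ ∀ i : Fin N, m ≤ i → u i = 0})
  refine (isCompact_sphere (0 : Fin N → ℂ) 1).of_isClosed_subset ?_ fun u hu => by simpa using hu.1
  refine (isClosed_eq continuous_norm continuous_const).inter ?_
  have : IsClosed (⋂ i : Fin N, ⋂ _ : m ≤ (i : ℕ), {u : Fin N → ℂ | u i = 0}) :=
    isClosed_iInter fun i => isClosed_iInter fun _ =>
      isClosed_eq (continuous_apply i) continuous_const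
  exact (congrArg IsClosed (Set.ext fun u => mem_iInter₂)).mp this

theorem ne_of_norm {u : Fin N → ℂ} (hu : ‖u‖ = 1) : u ≠ 0 := fun e => by
  rw [e, norm_zero] at hu
  exact zero_ne_one hu

/-- The matrix `u uᵀ`. -/
def uu (u : Fin N → ℂ) : Fin N → Fin N → ℂ := fun i j => u i * u j

theorem norm_uu {u : Fin N → ℂ} (hu : ‖u‖ = 1) : ‖uu u‖ = 1 := by
  refine le_antisymm ((pi_norm_le_iff_of_nonneg zero_le_one).2 fun i =>
    (pi_norm_le_iff_of_nonneg zero_le_one).2 fun j => ?_) ?_
  · rw [uu, norm_mul]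
    exact mul_le_one₀ (hu ▸ norm_le_pi_norm u i) (norm_nonneg _) (hu ▸ norm_le_pi_norm u j)
  · by_contra hlt
    have hlt := not_le.1 hlt
    have : ‖u‖ < 1 := (pi_norm_lt_iff zero_lt_one).2 fun i => by
      have h1 : ‖u i‖ * ‖u i‖ < 1 := by
        rw [← norm_mul]
        exact ((norm_le_pi_norm (uu u i) i).trans (norm_le_pi_norm (uu u) i)).trans_lt hlt
      by_contra h2
      have h2 := not_lt.1 h2
      nlinarith
    exact this.ne hu

theorem mv2_pj (u : Fin N → ℂ) (M : Fin N → Fin N → ℂ) :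
    ∃ c : ℂ, mv2 (mv (pj u)) (mv (pj u)) M = c • uu u := by
  let n : ℂ := ((∑ k, Complex.normSq (u k) : ℝ) : ℂ)
  refine ⟨(∑ j, (starRingEnd ℂ) (u j) * ((∑ k, (starRingEnd ℂ) (u k) * M k j) / n)) / n,
    funext fun i => funext fun j => ?_⟩
  rw [mv2_apply]
  simp only [mv_pj, Pi.smul_apply, smul_eq_mul, uu]
  rw [← mul_assoc]
  congr 1
  rw [div_mul_eq_mul_div, Finset.sum_mul]
  congr 1
  exact Finset.sum_congr rfl fun l _ => (mul_assoc _ _ _).symm

theorem mv2_uu {u : Fin N → ℂ} (hu : u ≠ 0) : mv2 (mv (pj u)) (mv (pj u)) (uu u) = uu u := by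
  funext i
  rw [mv2_apply]
  have h1 : ∀ j, (fun k => uu u k j) = u j • u := fun j => funext fun k => mul_comm _ _
  have h2 : (fun j => mv (pj u) (fun k => uu u k j) i) = u i • u := funext fun j => by
    rw [h1, map_smul, mv_pj_self hu]
    exact mul_comm _ _
  rw [h2, map_smul, mv_pj_self hu]
  rfl

theorem pj_smul {w : ℂ} (hw : ‖w‖ = 1) (u : Fin N → ℂ) : pj (w • u) = pj u := by
  have h1 : Complex.normSq w = 1 := by rw [Complex.normSq_eq_norm_sq, hw, one_pow]
  have h2 : w * (starRingEnd ℂ) w = 1 := by rw [Complex.mul_conj, h1, Complex.ofReal_one]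
  funext i j
  simp only [pj, Pi.smul_apply, smul_eq_mul, map_mul, h1, one_mul]
  congr 1
  linear_combination (u i * (starRingEnd ℂ) (u j)) * h2

/-- The double cover. -/
def qm (N m : ℕ) : C(Sm N m, RP N m) :=
  ⟨fun u => ⟨(⟨pj u.1, u.1, u.2.1, u.2.2, rfl⟩, uu u.1), mv2_uu (ne_of_norm u.2.1), norm_uu u.2.1⟩,
    Continuous.subtype_mk (((pj_cont.comp_continuous continuous_subtype_val
      fun u => ne_of_norm u.2.1).subtype_mk _).prodMk (continuous_pi fun i => continuous_pi fun j =>
        ((continuous_apply i).comp continuous_subtype_val).mul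
          ((continuous_apply j).comp continuous_subtype_val))) _⟩

theorem qm_surj : Function.Surjective (qm N m) := by
  rintro ⟨⟨⟨_, u, hu, h0, rfl⟩, M⟩, h1, h2⟩
  obtain ⟨c, hc⟩ := mv2_pj u M
  have hM : M = c • uu u := h1.symm.trans hc
  have hc1 : ‖c‖ = 1 := by
    have : ‖M‖ = 1 := h2
    rwa [hM, norm_smul, norm_uu hu, mul_one] at this
  obtain ⟨w, hw⟩ := IsAlgClosed.exists_pow_nat_eq c two_pos
  have hw1 : ‖w‖ = 1 := by
    rw [← hw, norm_pow] at hc1
    exact (pow_eq_one_iff_of_nonneg (norm_nonneg w) two_ne_zero).1 hc1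
  refine ⟨⟨w • u, by rw [norm_smul, hw1, hu, mul_one], fun i hi => by
    rw [Pi.smul_apply, h0 i hi, smul_zero]⟩,
    Subtype.ext (Prod.ext (Subtype.ext (pj_smul hw1 u)) ?_)⟩
  show uu (w • u) = M
  rw [hM, ← hw]
  funext i j
  simp only [uu, Pi.smul_apply, smul_eq_mul]
  ring

/-- The linear form with value one on `u`. -/
def lf (u : Fin N → ℂ) : (Fin N → ℂ) →L[ℂ] ℂ :=
  ∑ j, ((starRingEnd ℂ) (u j) / ((∑ k, Complex.normSq (u k) : ℝ) : ℂ)) •
    (ContinuousLinearMap.proj j : (Fin N → ℂ) →L[ℂ] ℂ)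

theorem lf_apply (u y : Fin N → ℂ) : lf u y =
    (∑ j, (starRingEnd ℂ) (u j) * y j) / ((∑ k, Complex.normSq (u k) : ℝ) : ℂ) := by
  rw [lf, sum_apply, Finset.sum_div]
  exact Finset.sum_congr rfl fun j _ => div_mul_eq_mul_div _ _ _

theorem lf_neg (u : Fin N → ℂ) : lf (-u) = -lf u := by
  refine ContinuousLinearMap.ext fun y => ?_
  simp only [neg_apply, lf_apply, Pi.neg_apply, map_neg, Complex.normSq_neg,
    neg_mul, Finset.sum_neg_distrib, neg_div]

theorem lf_self {u : Fin N → ℂ} (hu : u ≠ 0) : lf u u = 1 := by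
  have h1 := mv_pj_self hu
  rw [mv_pj, ← lf_apply] at h1
  exact smul_left_injective ℂ hu (h1.trans (one_smul ℂ u).symm)

theorem eq_of_uu {u v : Fin N → ℂ} (hu : u ≠ 0) (e : uu u = uu v) : v = u ∨ v = -u := by
  obtain ⟨i, hi⟩ := Function.ne_iff.1 hu
  have hi : u i ≠ 0 := hi
  have h1 : ∀ j, u i * u j = v i * v j := fun j => congrFun (congrFun e i) j
  rcases mul_self_eq_mul_self_iff.1 (h1 i).symm with h | h
  · exact Or.inl (funext fun j => mul_left_cancel₀ hi (by rw [h1 j, h]))
  · refine Or.inr (funext fun j => mul_left_cancel₀ hi ?_)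
    rw [Pi.neg_apply, mul_neg, h1 j, h]
    ring

/-- The data of the double cover. -/
def cov (N m : ℕ) : Cov (Sm N m) (sg N m) where
  q := qm N m
  u := ⟨fun u => u.1, continuous_subtype_val⟩
  l := ⟨fun u => lf u.1, continuous_clm_apply.2 fun y => by
    simp only [lf_apply]
    refine Continuous.div (continuous_finsetSum _ fun j _ => (Complex.continuous_conj.comp
      ((continuous_apply j).comp continuous_subtype_val)).mul continuous_const)
      (Complex.continuous_ofReal.comp (continuous_finsetSum _ fun k _ =>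
        Complex.continuous_normSq.comp ((continuous_apply k).comp continuous_subtype_val)))
      fun u => Complex.ofReal_ne_zero.2 (nsq_pos (ne_of_norm u.2.1)).ne'⟩
  surj := qm_surj
  lu s := lf_self (ne_of_norm s.2.1)
  pq s := ContinuousLinearMap.ext fun y => (mv_pj s.1 y).trans (by rw [← lf_apply]; rfl)
  fib s s' e := by
    rcases eq_of_uu (ne_of_norm s.2.1) (congrArg (fun z : RP N m => z.1.2) e) with h | h
    · exact Or.inl ⟨h, congrArg lf h⟩
    · exact Or.inr ⟨h, (congrArg lf h).trans (lf_neg _)⟩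

theorem d1 : S_D1 := by
  intro N m
  refine ⟨⟨Sm N m, inferInstance, inferInstance, ⟨cov N m⟩⟩, iso_of_cov (cov N m), fun h1 h2 => ?_⟩
  let i : Fin N := ⟨0, h1.trans h2⟩
  refine ⟨qm N m ⟨Pi.single i 1, by rw [Pi.norm_single, norm_one], fun j hj => ?_⟩⟩
  refine Pi.single_eq_of_ne (fun e => ?_) _
  rw [e] at hj
  exact absurd (h1.trans hj) (by simp [i])

end

end Pool.Agent.MP_826def_gt.BD
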