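import Pool.Agent.MP_826def_gt.BD.Spec
import Pool.Agent.MP_826def_gt.D11.RP
import Pool.Agent.MP_826def_gt.D11.Desc
import Pool.Agent.MP_826def_gt.BG.Fm

/-!
The division lemma on the product of a real projective space with a space.
-/

namespace Pool.Agent.MP_826def_gt.BD

open MU Set Topology

noncomputable section

namespace X2

open D11 (top sph_prod division)

section alg

variable {A : Type 1} [CommRing A] {T T' M : Type 1} [AddCommGroup T] [Module A T]
  [AddCommGroup T'] [Module A T'] [AddCommGroup M]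

theorem free_gen (t : A) (ι : M →+ T) (m : ℕ)
    (H : Function.Surjective fun c : Fin m → M => ∑ i : Fin m, t ^ (i : ℕ) • ι (c i)) (u : T) :
    ∃ c u', u = ι c + t • u' := by
  obtain ⟨c, rfl⟩ := H u
  cases m with
  | zero => exact ⟨0, 0, by simp⟩
  | succ m =>
    refine ⟨c 0, ∑ i : Fin m, t ^ (i : ℕ) • ι (c i.succ), ?_⟩
    simp only [Fin.sum_univ_succ, Fin.val_zero, pow_zero, one_smul, Fin.val_succ, Finset.smul_sum,
      smul_smul, pow_succ']

theorem free_ker (t : A) (ι : M →+ T) (m : ℕ)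
    (H : Function.Bijective fun c : Fin (m + 1) → M => ∑ i : Fin (m + 1), t ^ (i : ℕ) • ι (c i))
    (nil : ∀ y : T, t ^ (m + 1) • y = 0) (r : T →ₗ[A] T') (nil' : ∀ y : T', t ^ m • y = 0) (y : T)
    (hy : t • y = 0) : r y = 0 := by
  obtain ⟨c, rfl⟩ := H.2 y
  beta_reduce at hy ⊢
  have h1 : (Fin.cons 0 fun i : Fin m => c i.castSucc : Fin (m + 1) → M) = 0 := by
    refine H.1 ?_
    simp only [Pi.zero_apply, map_zero, smul_zero, Finset.sum_const_zero]
    rw [← hy, Fin.sum_univ_succ, Fin.sum_univ_castSucc, smul_add, smul_smul, Fin.val_last,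
      ← pow_succ', nil, add_zero, Finset.smul_sum]
    simp only [Fin.cons_zero, map_zero, smul_zero, zero_add, Fin.cons_succ, Fin.val_succ,
      Fin.val_castSucc, smul_smul, pow_succ']
  have h2 : ∀ i : Fin m, c i.castSucc = 0 := fun i => by
    simpa using congrFun h1 i.succ
  simp only [Fin.sum_univ_castSucc, h2, map_zero, smul_zero, Finset.sum_const_zero, zero_add,
    Fin.val_last, map_smul, nil']

end alg

variable [Fact Core]

/-- Pull back as a linear map. -/
def lp (A : Api) {X X' K : Type} [TopologicalSpace X] [TopologicalSpace X'] [TopologicalSpace K]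
    [CompactSpace K] [T2Space K] (f : C(X, K)) (φ : C(X', X)) (f' : C(X', K))
    (e : f.comp φ = f') : Mod f →ₗ[h K] Mod f' where
  toFun := Hpull φ
  map_add' := map_add (Hpull φ)
  map_smul' a y := by
    subst e
    exact (A.act.pull f φ a).2 y

/-- The class of the tautological bundle. -/
abbrev tt (N : ℕ) : h (CP N N) := eu (taut N N)

theorem eu_sq (A : Api) {a : ℕ → ℕ → UU} (ha : IsFGL a) (N : ℕ) :
    eu (sq N N) = tt N * tw (cf (toU _) a) (tt N) := by
  have e : eu (sq N N) = Fm (cf (toU _) a) (tt N) (tt N) :=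
    ha.tens (taut N N) (taut N N) (sq N N) (A.bun.rk_taut N N) (A.bun.rk_taut N N)
      (A.bun.rk_tm _ _) (A.bun.tens_tm (ContinuousMap.id _) (ContinuousMap.id _))
  refine e.trans (BG.fm_tw _ (fun i => ?_) (ha.nil _ (A.bun.rk_taut N N)))
  rw [cf, ha.fg.unit]
  split_ifs <;> simp

/-- The map from real projective space to the full complex projective space. -/
abbrev gR (N m : ℕ) : C(RP N m, CP N N) := (top N m).comp (RP.π N m)

theorem pull_tt (A : Api) (N m : ℕ) : pullR (gR N m) (tt N) = vv N m :=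
  A.eul.pull (gR N m) (taut N N)

theorem pull_tw (A : Api) {a : ℕ → ℕ → UU} (ha : IsFGL a) (N m : ℕ) :
    pullR (gR N m) (tw (cf (toU _) a) (tt N)) = tw (cf (toU (RP N m)) a) (vv N m) := by
  rw [BG.map_tw _ _ (ha.nil _ (A.bun.rk_taut N N)), pull_tt A]
  congr 1
  funext i j
  exact pull_comp (toPt (CP N N)).continuous.isProperMap (gR N m).continuous.isProperMap _

variable (X : Type) [TopologicalSpace X]

abbrev fB (N m : ℕ) : C(CP N m × X, CP N N) := (top N m).comp ContinuousMap.fst

abbrev pX (N m : ℕ) : C(RP N m × X, CP N m × X) := (RP.π N m).prodMap (ContinuousMap.id X)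

abbrev fS (N m : ℕ) : C(RP N m × X, CP N N) := (gR N m).comp ContinuousMap.fst

abbrev iB (N m : ℕ) : C(CP N m × X, CP N (m + 1) × X) :=
  (CP.incl N (Nat.le_succ m)).prodMap (ContinuousMap.id X)

abbrev iS (N m : ℕ) : C(RP N m × X, RP N (m + 1) × X) :=
  (RP.incl N (Nat.le_succ m)).prodMap (ContinuousMap.id X)

abbrev xi (N m : ℕ) : Bun (CP N m × X) := (sq N N).pull (fB X N m)

abbrev tS (N m : ℕ) : C(RP N m × X, FD.mat N) := (RP.τ N m).comp ContinuousMap.fst

omit [Fact Core] in
theorem isSph (N m : ℕ) : IsSph (sq N m) (RP.π N m) (RP.τ N m) :=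
  ⟨IsEmbedding.subtypeVal, Subtype.range_coe_subtype⟩

omit [Fact Core] in
theorem sph (N m : ℕ) : IsSph (xi X N m) (pX X N m) (tS X N m) := sph_prod X (isSph N m)

omit [Fact Core] in
theorem proper_pm {K K' : Type} [TopologicalSpace K] [TopologicalSpace K'] [CompactSpace K]
    [T2Space K'] (f : C(K, K')) : IsProperMap (f.prodMap (ContinuousMap.id X)) :=
  f.continuous.isProperMap.prodMap isProperMap_id

omit [Fact Core] in
theorem proper_snd (K : Type) [TopologicalSpace K] [CompactSpace K] :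
    IsProperMap (ContinuousMap.snd : C(K × X, X)) := isProperMap_snd_of_compactSpace

theorem act_top (A : Api) (N m i : ℕ) (y : H (CP N m × X)) :
    Hact ContinuousMap.fst (eu (taut N m) ^ i) y = Hact (fB X N m) (tt N ^ i) y := by
  rw [← (A.act.base ContinuousMap.fst (top N m) _).2, map_pow (pullR (top N m)), A.eul.pull]
  rfl

theorem act_gR (A : Api) (N m : ℕ) (c : h (CP N N)) :
    act (fS X N m) c = act ContinuousMap.fst (pullR (gR N m) c) :=
  (A.act.base ContinuousMap.fst (gR N m) c).1.symm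

theorem div_top (A : Api) (g : S_Gys) (c : S_CPX) {a : ℕ → ℕ → UU} (ha : IsFGL a) [T2Space X]
    [LocallyCompactSpace X] (N m : ℕ) (hm : m + 2 ≤ N) (y : Mod (fS X N (m + 2)))
    (hy : tt N • y = 0) : ∃ z : H X, Hpull (iS X N m) (Hpull (iS X N (m + 1)) y) =
      Hact (fS X N m) (tw (cf (toU _) a) (tt N)) (Hpull ContinuousMap.snd z) := by
  obtain ⟨γ, hγ⟩ := g
  have nil : ∀ (l : ℕ) (y : Mod (fB X N l)), tt N ^ l • y = 0 := fun l y =>
    (act_top X A N l l y).symm.trans (by rw [(c N l).1, map_zero]; rfl)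
  have free : ∀ l ≤ N, Function.Bijective fun c : Fin l → H X => ∑ i : Fin l,
      tt N ^ (i : ℕ) • (show H X →+ Mod (fB X N l) from Hpull ContinuousMap.snd) (c i) :=
    fun l hl => by
      have := (c N l).2 hl (ContinuousMap.snd : C(CP N l × X, X)) ContinuousMap.fst
        (Homeomorph.prodComm (CP N l) X).isHomeomorph
      simp only [act_top X A] at this
      exact this
  have ee : ∀ (l : ℕ) (u : Mod (fB X N l)),
      Heul (xi X N l) u = (tt N * tw (cf (toU _) a) (tt N)) • u := fun l u => by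
    rw [← eu_sq A ha]
    exact (A.eul.act (fB X N l) (sq N N)).2 u
  let G : ∀ l, Mod (fS X N l) →ₗ[h (CP N N)] Mod (fB X N l) := fun l =>
    { toFun := γ (xi X N l) (pX X N l) (tS X N l)
      map_add' := map_add (γ (xi X N l) (pX X N l) (tS X N l))
      map_smul' := hγ.lin (xi X N l) (pX X N l) (tS X N l) (fB X N l) (sph X N l) }
  obtain ⟨z, hz⟩ := division (B := fun l => Mod (fB X N l)) (S := fun l => Mod (fS X N l))
    (M := H X) (tt N) (tw (cf (toU _) a) (tt N)) (fun l => lp A (fB X N l) (pX X N l) _ rfl) G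
    (fun l => lp A (fB X N (l + 1)) (iB X N l) _ rfl)
    (fun l => lp A (fS X N (l + 1)) (iS X N l) _ rfl) (fun l => Hpull ContinuousMap.snd) m
    (free_ker _ _ _ (free _ hm) (nil _) _ (nil _))
    (free_ker _ _ _ (free _ (by omega)) (nil _) _ (nil _))
    (hγ.nat (xi X N (m + 2)) (pX X N (m + 2)) (tS X N (m + 2)) (iB X N (m + 1)) (pX X N (m + 1))
      (tS X N (m + 1)) (iS X N (m + 1)) (sph X N _) (sph X N (m + 1)) (proper_pm X _)
      (fun _ => rfl) fun _ => rfl).2
    (fun y => (A.act.Hcomp _ _ (proper_pm X _) (proper_pm X _) y).trans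
      (A.act.Hcomp (iB X N m) (pX X N m) (proper_pm X _) (proper_pm X _) y).symm)
    (fun y hy => ((hγ.exact _ _ _ (sph X N (m + 1))).2.2.1 y).1 hy)
    (fun u hu => by
      obtain ⟨u', hu'⟩ := ((hγ.exact _ _ _ (sph X N (m + 1))).2.1 u).1 hu
      exact ⟨u', (ee _ u').symm.trans hu'⟩)
    (fun u => (congrArg (Hpull (pX X N m)) (ee m u).symm).trans
      ((hγ.exact _ _ _ (sph X N m)).2.1.apply_apply_eq_zero u))
    (free_gen _ _ _ (free m (by omega)).2) y hy
  refine ⟨z, hz.trans ?_⟩
  exact congrArg (Hact (fS X N m) (tw (cf (toU _) a) (tt N)))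
    (A.act.Hcomp ContinuousMap.snd (pX X N m) (proper_snd X _) (proper_pm X _) z)

end X2

open X2

theorem d2 [Fact Core] (A : Api) (g : S_Gys) (c : S_CPX) : S_D2 := by
  intro a ha X _ _ _ N m hm y hy
  obtain ⟨z, hz⟩ := div_top X A g c ha N m hm ((y, 0) : H (RP N (m + 2) × X)) (Prod.ext
    (by
      show act (fS X N (m + 2)) (tt N) y = 0
      rw [act_gR X A, pull_tt A, hy])
    (map_zero (act ((fS X N (m + 2)).comp ContinuousMap.fst) (tt N))))
  refine ⟨z.1, ?_⟩
  have h1 : pull (iS X N m) (pull (iS X N (m + 1)) y) =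
      act (fS X N m) (tw (cf (toU _) a) (tt N)) (pull ContinuousMap.snd z.1) := congrArg Prod.fst hz
  rw [pull_comp (proper_pm X _) (proper_pm X _), act_gR X A, pull_tw A ha] at h1
  exact h1

end

end Pool.Agent.MP_826def_gt.BD
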