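import Pool.Agent.MP_826def_gt.BD.D2

/-!
The descent on the exponent on the product of a real projective space with a space.
-/

namespace Pool.Agent.MP_826def_gt.BD

open MU Set Topology

noncomputable section

namespace X3

open X2
open D11 (Psi descent)

variable [Fact Core]

/-- The group `h X` as a module over the ring of `K`. -/
def Mo {X K : Type} [TopologicalSpace X] [TopologicalSpace K] (_f : C(X, K)) : Type 1 := h X

instance {X K : Type} [TopologicalSpace X] [TopologicalSpace K] (f : C(X, K)) :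
    AddCommGroup (Mo f) := inferInstanceAs (AddCommGroup (h X))

instance {X K : Type} [TopologicalSpace X] [TopologicalSpace K] [CompactSpace K] [T2Space K]
    (f : C(X, K)) : Module (h K) (Mo f) := Module.compHom (h X) (act f)

section deg

variable (A : Api) {K : Type} [TopologicalSpace K] [CompactSpace K] [T2Space K]
include A

theorem deg_mul {d e : ℤ} {x y : h K} (hx : IsDeg d x) (hy : IsDeg e y) :
    IsDeg (d + e) (x * y) := by
  have := A.deg.prod (ContinuousMap.id K) (ContinuousMap.id K) d e x hx y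
  rw [show part e y = y from hy] at this
  exact this

theorem deg_pow {x : h K} (hx : IsDeg 1 x) (n : ℕ) : IsDeg n (x ^ n) := by
  induction n with
  | zero => rw [pow_zero]; exact A.deg.one K
  | succ n ih => rw [pow_succ, Nat.cast_succ]; exact deg_mul A ih hx

theorem deg_tw {a : ℕ → ℕ → UU} (ha : IsFGL a) {x : h K} (hx : IsDeg 1 x) (hn : IsNilpotent x) :
    IsDeg 0 (tw (cf (toU K) a) x) := by
  obtain ⟨D, hD⟩ := hn
  rw [BG.tw_eq _ _ D hD, IsDeg, map_sum]
  refine Finset.sum_congr rfl fun m _ => ?_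
  have h1 : IsDeg (-m) (wc (cf (toU K) a) (m + 1)) := by
    rw [wc, IsDeg, map_sum]
    refine Finset.sum_congr rfl fun i hi => ?_
    have h2 := ha.deg i (m + 1 - i)
    rw [Nat.cast_sub (by have := Finset.mem_range.1 hi; omega),
      show (1 : ℤ) - i - (((m + 1 : ℕ) : ℤ) - i) = -m by push_cast; ring] at h2
    exact (A.deg.pull (toPt K) _ _).trans (congrArg (pull (toPt K)) h2)
  have h3 := deg_mul A h1 (deg_pow A hx m)
  rwa [neg_add_cancel] at h3

theorem act_AA {T : Type} [TopologicalSpace T] {a : ℕ → ℕ → UU} (f : C(T, K)) (v : h K)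
    (P : AddSubgroup (h T)) (hv : ∀ y ∈ P, act f v y ∈ P)
    (ha : ∀ i j, ∀ y ∈ P, act (toPt T) (a i j) y ∈ P) {c : h K} (hc : c ∈ AA a v) :
    ∀ y ∈ P, act f c y ∈ P := by
  induction hc using Subring.closure_induction with
  | mem x hx =>
    rcases hx with rfl | ⟨q, rfl⟩
    · exact hv
    · intro y hy
      have := (A.act.base f (toPt K) (a q.1 q.2)).1
      exact (congrArg (fun φ : AddMonoid.End (h T) => φ y ∈ P) this).mpr (ha q.1 q.2 y hy)
  | zero => intro y _; rw [map_zero]; exact zero_mem P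
  | one => intro y hy; rw [map_one]; exact hy
  | add x z _ _ hx hz => intro y hy; rw [map_add]; exact add_mem (hx y hy) (hz y hy)
  | neg x _ hx => intro y hy; rw [map_neg]; exact neg_mem (hx y hy)
  | mul x z _ _ hx hz => intro y hy; rw [map_mul]; exact hx _ (hz y hy)

omit A in
theorem tw_AA (a : ℕ → ℕ → UU) {v : h K} (hv : IsNilpotent v) : tw (cf (toU K) a) v ∈ AA a v := by
  obtain ⟨D, hD⟩ := hv
  rw [BG.tw_eq _ _ D hD]
  have h1 : v ∈ AA a v := Subring.subset_closure (mem_insert _ _)
  have h2 : ∀ i l, cf (toU K) a i l ∈ AA a v := fun i l =>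
    Subring.subset_closure (mem_insert_of_mem _ ⟨(i, l), rfl⟩)
  exact sum_mem fun m _ => mul_mem (sum_mem fun i _ => h2 _ _) (pow_mem h1 _)

end deg

theorem eu_pt (A : Api) {N : ℕ} (q : CP N N) : pullR (ContinuousMap.const Unit q) (tt N) = 0 := by
  obtain ⟨u, hu, -, e⟩ := q.2
  have h0 : u ≠ 0 := fun e => by rw [e, norm_zero] at hu; exact zero_ne_one hu
  have := A.eul.nz (ι := Unit) (fun _ => (taut N N).pull (ContinuousMap.const Unit q))
    (fun _ => ContinuousMap.const Unit u) (fun _ _ => by
      show mv q.1 u = u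
      rw [← e, mv_pj_self h0]) fun _ => ⟨(), h0⟩
  rw [Fintype.prod_unique] at this
  exact (A.eul.pull _ _).trans this

omit [Fact Core] in
theorem proper_slice {B : Type} [TopologicalSpace B] [T2Space B] (X : Type) [TopologicalSpace X]
    (b : B) : IsProperMap (slice X b) := by
  have : IsClosedEmbedding fun x : X => (b, x) :=
    ⟨isEmbedding_prodMkRight b, by
      have : (range fun x : X => (b, x)) = {z : B × X | z.1 = b} :=
        Set.ext fun z => ⟨by rintro ⟨x, rfl⟩; rfl, fun e => ⟨z.2, Prod.ext e.symm rfl⟩⟩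
      rw [this]
      exact isClosed_eq continuous_fst continuous_const⟩
  exact this.isProperMap

end X3

open X2 X3
open D11 (Psi descent)

theorem d3 [Fact Core] (A : Api) (h2 : S_D2) : S_D3 := by
  intro a ha X _ _ _ R R1 R2 R3 d R4 N k hk b z hz
  have hn : IsNilpotent (tt N) := ha.nil _ (A.bun.rk_taut N N)
  have ht : IsDeg 1 (tt N) := A.eul.deg _ 1 (A.bun.rk_taut N N)
  let j : ∀ m, h X →+ Mo (fS X N m) := fun m => pull ContinuousMap.snd
  let r : ∀ m, Mo (fS X N (m + 1)) →ₗ[h (CP N N)] Mo (fS X N m) := fun m =>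
    { toFun := pull (iS X N m)
      map_add' := map_add (pull (iS X N m))
      map_smul' := fun c y => (A.act.pull (fS X N (m + 1)) (iS X N m) c).1 y }
  let ev : ∀ m, Mo (fS X N (m + 1)) →+ h X := fun m =>
    pull (slice X (RP.incl N (Nat.le_add_left 1 m) b))
  let p : ∀ m, ℤ → Mo (fS X N m) →+ Mo (fS X N m) := fun m e => part e
  have evj : ∀ m c, ev m (j (m + 1) c) = c := fun m c =>
    (pull_comp (proper_snd X _) (proper_slice X _) c).trans (pull_id c)
  have evt : ∀ m y, ev m (tt N • y) = 0 := fun m y => by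
    refine ((A.act.pull (fS X N (m + 1)) (slice X _) (tt N)).1 y).trans ?_
    have := (A.act.base (toPt X) (ContinuousMap.const Unit
      (gR N (m + 1) (RP.incl N (Nat.le_add_left 1 m) b))) (tt N)).1
    rw [eu_pt A, map_zero] at this
    exact congrArg (fun φ : AddMonoid.End (h X) => φ _) this.symm
  have pc : ∀ m (c : h (CP N N)) (n : ℤ), IsDeg n c → ∀ e y,
      p m (n + e) (c • y) = c • p m e y := fun m c n hc e y =>
    A.deg.prod (fS X N m) (ContinuousMap.id _) n e c hc y
  have pj : ∀ m e c, p m e (j m c) = j m (part e c) := fun m e c => A.deg.pull _ e c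
  let Ps : ∀ m, AddSubgroup (h (RP N m × X)) := fun m =>
    Psi (T := Mo (fS X N m)) (tt N) (j m) R
  have Pt : ∀ m, ∀ y ∈ Psi (tt N) (j m) R, tt N • y ∈ Psi (tt N) (j m) R := fun m y hy =>
    D11.Psi.map (DistribSMul.toAddMonoidHom _ (tt N)) _ (fun i c hc => by
      rw [DistribSMul.toAddMonoidHom_apply, smul_smul, ← pow_succ']
      exact D11.Psi.mem _ _ _ hc) hy
  have Pa : ∀ m i l, ∀ y ∈ Ps m, act (toPt (RP N m × X)) (a i l) y ∈ Ps m := fun m i l y hy =>
    D11.Psi.map (T := Mo (fS X N m)) (t := tt N) (j := j m) (R := R) (act (toPt (RP N m × X)) (a i l))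
      (Ps m) (fun n c hc => by
      have e1 := (A.act.comm (toPt (RP N m × X)) (fS X N m) (a i l) (tt N ^ n)).1 (j m c)
      have e2 := (A.act.pull (toPt X) (ContinuousMap.snd : C(RP N m × X, X)) (a i l)).1 c
      have e3 := D11.Psi.mem (tt N) (j m) n (R1 i l c hc)
      exact (congrArg (· ∈ Ps m)
        (e1.trans (congrArg (act (fS X N m) (tt N ^ n)) e2.symm))).mpr e3) hy
  have Pj : ∀ m, ∀ c ∈ R, j m c ∈ Psi (tt N) (j m) R := fun m c hc => by
    have := D11.Psi.mem (tt N) (j m) 0 hc
    rwa [pow_zero, one_smul] at this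
  have key := descent (S := fun m => Mo (fS X N m)) (tt N) (tw (cf (toU _) a) (tt N)) N d R j r ev p
    part
    (fun m hm y hy => by
      obtain ⟨c, hc⟩ := h2 a ha X N m hm y (by
        rw [← pull_tt A, ← act_gR X A]
        exact hy)
      refine ⟨c, (pull_comp (proper_pm X _) (proper_pm X _) y).trans (hc.trans ?_)⟩
      rw [← pull_tw A ha, cr, ← act_gR X A]
      rfl)
    (fun m c => pull_comp (proper_snd X _) (proper_pm X _) c) evj evt
    (fun m y => pull_comp (proper_pm X _) (proper_slice X _) y)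
    (fun m c => by
      obtain ⟨s, hs⟩ := BG.tw_split (cf (toU (CP N N)) a) (fun i => by
        rw [cf, ha.fg.unit]
        split_ifs <;> simp) (fun i l => by rw [cf, cf, ha.fg.symm]) hn
      rw [sub_eq_iff_eq_add'.1 hs, add_smul, mul_smul, map_add, evt, add_zero, two_smul, map_add,
        evj]
      exact R3 c)
    (fun m c hc => act_AA A (fS X N m) (tt N) (Ps m) (Pt m) (Pa m) (tw_AA a hn) _ (Pj m c hc))
    (fun m e y => by rw [add_comm]; exact pc m _ 1 ht e y) pj
    (fun m e c => by
      have := pc m _ 0 (deg_tw A ha ht hn) e (j m c)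
      rwa [zero_add, pj] at this)
    (fun m e y => (A.deg.pull (iS X N m) e y).symm) R2
    (fun e he c => R4 e he _ ((A.deg.proj e e c).trans (if_pos rfl))) k (2 * k) le_rfl hk
    (p (2 * k + 1) d z) ((A.deg.proj d d z).trans (if_pos rfl)) (by
      have h1 : (tt N ^ k • (show Mo (fS X N (2 * k + 1)) from z)) ∈
          Psi (tt N) (j (2 * k + 1)) R := by
        have h3 : Hi a (vv N (2 * k + 1)) X d ≤ Ps (2 * k + 1) :=
          (AddSubgroup.closure_le _).2 (by
            rintro _ ⟨c, hc, e, he, y, hy, rfl⟩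
            refine act_AA A ContinuousMap.fst (vv N (2 * k + 1)) (Ps (2 * k + 1))
              (fun y hy => ?_) (Pa _) hc _ (Pj _ y (R4 e he y hy))
            rw [← pull_tt A, ← act_gR X A]
            exact Pt _ y hy)
        have h4 := h3 hz
        rw [← pull_tt A, ← map_pow, ← act_gR X A] at h4
        exact h4
      rw [← pc _ _ k (deg_pow A ht k)]
      refine D11.Psi.map (p (2 * k + 1) (k + d)) _ (fun i c hc => ?_) h1
      rw [show (k : ℤ) + d = i + (k + d - i) by ring, pc _ _ i (deg_pow A ht i), pj]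
      exact D11.Psi.mem _ _ i (R2 _ c hc))
  exact (congrArg (· ∈ R) (A.deg.pull _ d z)).mpr key

end

end Pool.Agent.MP_826def_gt.BD
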