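import Pool.Agent.MP_826def_gt.BD.Spec
import Pool.Agent.MP_826def_gt.BG.Fm

/-! The expansion of the Euler class of a bundle twisted by a line bundle. -/

namespace Pool.Agent.MP_826def_gt.BD

open Set Topology MU

noncomputable section

/-- The projective bundle. -/
def PB {K : Type} [TopologicalSpace K] (ξ : Bun K) {N : ℕ} (φ : FD.std N ≃L[ℂ] ξ.W) : Type :=
  {z : K × CP N N // ∀ y, ξ.p z.1 (φ (mv z.2.1 y)) = φ (mv z.2.1 y)}

section

variable {K : Type} [TopologicalSpace K] (ξ : Bun K) {N : ℕ} (φ : FD.std N ≃L[ℂ] ξ.W)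

instance : TopologicalSpace (PB ξ φ) := instTopologicalSpaceSubtype

instance [T2Space K] : T2Space (PB ξ φ) := inferInstanceAs (T2Space (Subtype _))

instance [CompactSpace K] : CompactSpace (PB ξ φ) := by
  refine isCompact_iff_compactSpace.1 (IsClosed.isCompact ?_ :
    IsCompact {z : K × CP N N | ∀ y, ξ.p z.1 (φ (mv z.2.1 y)) = φ (mv z.2.1 y)})
  rw [ofPred_forall]
  refine isClosed_iInter fun y => ?_
  have h1 : Continuous fun z : K × CP N N => φ (mv z.2.1 y) :=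
    φ.continuous.comp ((mv_cont.comp (continuous_subtype_val.comp continuous_snd)).clm_apply
      continuous_const)
  exact isClosed_eq ((ξ.p.continuous.comp continuous_fst).clm_apply h1) h1

/-- The projection of the projective bundle. -/
def PB.pr : C(PB ξ φ, K) := ⟨fun z => z.1.1, continuous_fst.comp continuous_subtype_val⟩

/-- The line. -/
def PB.ln : C(PB ξ φ, CP N N) := ⟨fun z => z.1.2, continuous_snd.comp continuous_subtype_val⟩

theorem PB.isPr : IsPr ξ φ (PB.pr ξ φ) (PB.ln ξ φ) :=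
  ⟨IsEmbedding.subtypeVal, Subtype.range_coe_subtype⟩

theorem PB.isPr' (B : Type) [TopologicalSpace B] :
    IsPr (ξ.pull (ContinuousMap.snd : C(B × K, K))) φ ((ContinuousMap.id B).prodMap (PB.pr ξ φ))
      ((PB.ln ξ φ).comp ContinuousMap.snd) := by
  refine ⟨?_, ?_⟩
  · exact (Homeomorph.prodAssoc B K (CP N N)).symm.isEmbedding.comp
      (IsEmbedding.id.prodMap IsEmbedding.subtypeVal)
  · ext z
    exact ⟨by rintro ⟨e, rfl⟩; exact e.2.2, fun hz => ⟨(z.1.1, ⟨(z.1.2, z.2), hz⟩), rfl⟩⟩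

/-- The projection onto the line. -/
def PB.e0 : C(PB ξ φ, ξ.W →L[ℂ] ξ.W) :=
  ⟨fun z => (φ : _ →L[ℂ] _) ∘L mv z.1.2.1 ∘L (φ.symm : _ →L[ℂ] _) ∘L ξ.p z.1.1,
    continuous_const.clm_comp ((mv_cont.comp (continuous_subtype_val.comp
      (PB.ln ξ φ).continuous)).clm_comp (continuous_const.clm_comp
        (ξ.p.continuous.comp (PB.pr ξ φ).continuous)))⟩

theorem PB.e0_apply (z : PB ξ φ) (w : ξ.W) :
    PB.e0 ξ φ z w = φ (mv z.1.2.1 (φ.symm (ξ.p z.1.1 w))) := rfl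

theorem PB.qq (z : PB ξ φ) (y : Fin N → ℂ) : mv z.1.2.1 (mv z.1.2.1 y) = mv z.1.2.1 y :=
  congrArg (fun q : (Fin N → ℂ) →L[ℂ] Fin N → ℂ => q y) z.1.2.idem

theorem PB.pp (z : PB ξ φ) (w : ξ.W) : ξ.p z.1.1 (ξ.p z.1.1 w) = ξ.p z.1.1 w :=
  congrArg (fun q : ξ.W →L[ℂ] ξ.W => q w) (ξ.idem _)

theorem PB.e0e0 (z : PB ξ φ) (w : ξ.W) : PB.e0 ξ φ z (PB.e0 ξ φ z w) = PB.e0 ξ φ z w := by
  rw [PB.e0_apply, PB.e0_apply, z.2, φ.symm_apply_apply, PB.qq]

theorem PB.pe0 (z : PB ξ φ) (w : ξ.W) : ξ.p z.1.1 (PB.e0 ξ φ z w) = PB.e0 ξ φ z w := by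
  rw [PB.e0_apply, z.2]

theorem PB.e0p (z : PB ξ φ) (w : ξ.W) : PB.e0 ξ φ z (ξ.p z.1.1 w) = PB.e0 ξ φ z w := by
  rw [PB.e0_apply, PB.e0_apply, PB.pp]

/-- The two complementary projections. -/
def PB.e (i : Fin 2) : C(PB ξ φ, ξ.W →L[ℂ] ξ.W) :=
  if i = 0 then PB.e0 ξ φ else ξ.p.comp (PB.pr ξ φ) - PB.e0 ξ φ

theorem PB.e_zero (z : PB ξ φ) (w : ξ.W) : PB.e ξ φ 0 z w = PB.e0 ξ φ z w := rfl

theorem PB.e_one (z : PB ξ φ) (w : ξ.W) : PB.e ξ φ 1 z w = ξ.p z.1.1 w - PB.e0 ξ φ z w := rfl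

theorem PB.ee (i j : Fin 2) (z : PB ξ φ) (w : ξ.W) :
    PB.e ξ φ i z (PB.e ξ φ j z w) = if i = j then PB.e ξ φ i z w else 0 := by
  fin_cases i <;> fin_cases j
  · exact PB.e0e0 ξ φ z w
  · show PB.e ξ φ 0 z (PB.e ξ φ 1 z w) = 0
    rw [PB.e_zero, PB.e_one, map_sub, PB.e0p, PB.e0e0, sub_self]
  · show PB.e ξ φ 1 z (PB.e ξ φ 0 z w) = 0
    rw [PB.e_zero, PB.e_one, PB.pe0, PB.e0e0, sub_self]
  · show PB.e ξ φ 1 z (PB.e ξ φ 1 z w) = PB.e ξ φ 1 z w
    rw [PB.e_one, PB.e_one, map_sub, map_sub, PB.pp, PB.pe0, PB.e0p, PB.e0e0, sub_self, sub_zero]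

/-- The line and its complement. -/
abbrev PB.L (i : Fin 2) : Bun (PB ξ φ) :=
  ⟨ξ.W, PB.e ξ φ i, fun z => ContinuousLinearMap.ext fun w => (PB.ee ξ φ i i z w).trans (if_pos rfl)⟩

theorem PB.split {T : Type} [TopologicalSpace T] (f : C(T, PB ξ φ)) :
    (ξ.pull ((PB.pr ξ φ).comp f)).Split fun i => (PB.L ξ φ i).pull f := by
  refine ⟨fun i => (PB.e ξ φ i).comp f, fun i => (PB.e ξ φ i).comp f, fun x => ⟨fun i => ?_,
    fun i j hij => ?_, ?_⟩⟩
  · exact (PB.L ξ φ i).idem _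
  · exact ContinuousLinearMap.ext fun w => (PB.ee ξ φ i j _ w).trans (if_neg hij)
  · rw [Fin.sum_univ_two]
    refine ContinuousLinearMap.ext fun w => ?_
    show PB.e ξ φ 0 _ (PB.e ξ φ 0 _ w) + PB.e ξ φ 1 _ (PB.e ξ φ 1 _ w) = ξ.p (f x).1.1 w
    rw [PB.ee, PB.ee, if_pos rfl, if_pos rfl, PB.e_zero, PB.e_one, add_sub_cancel]

end

variable [C : Fact Core]

theorem PB.rk0 (A : Api) {K : Type} [TopologicalSpace K] (ξ : Bun K) {N : ℕ}
    (φ : FD.std N ≃L[ℂ] ξ.W) : (PB.L ξ φ 0).Rk 1 := fun z => by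
  refine Eq.trans (C.out.good2.rk_iso _ (W' := FD.std N) (mv z.1.2.1)
    ((φ.symm : _ →L[ℂ] _) ∘L PB.e0 ξ φ z) ((φ : _ →L[ℂ] _) ∘L mv z.1.2.1) ((PB.L ξ φ 0).idem z)
    z.1.2.idem (ContinuousLinearMap.ext fun w => ?_) (ContinuousLinearMap.ext fun y => ?_))
    (A.bun.rk_taut N N z.1.2)
  · show φ (mv z.1.2.1 (φ.symm (PB.e0 ξ φ z w))) = PB.e0 ξ φ z w
    rw [PB.e0_apply, φ.symm_apply_apply, PB.qq]
  · show φ.symm (PB.e0 ξ φ z (φ (mv z.1.2.1 y))) = mv z.1.2.1 y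
    rw [PB.e0_apply, z.2, φ.symm_apply_apply, φ.symm_apply_apply, PB.qq]

theorem PB.rk1 (A : Api) {K : Type} [TopologicalSpace K] (ξ : Bun K) {N : ℕ}
    (φ : FD.std N ≃L[ℂ] ξ.W) {k : ℕ} (hk : ξ.Rk (k + 1)) : (PB.L ξ φ 1).Rk k := fun z => by
  have h1 := C.out.good2.rk_iso (ξ.p z.1.1) (W' := ξ.W.prod ξ.W)
    ((PB.e ξ φ 0 z).prodMap (PB.e ξ φ 1 z)) ((PB.e ξ φ 0 z).prod (PB.e ξ φ 1 z))
    ((PB.e ξ φ 0 z).coprod (PB.e ξ φ 1 z)) (ξ.idem _) (((PB.L ξ φ 0).sum (PB.L ξ φ 1)).idem z)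
    (ContinuousLinearMap.ext fun w => ?_) (ContinuousLinearMap.ext fun w => ?_)
  · rw [C.out.good2.rk_sum, hk] at h1
    have h2 : rk (PB.e ξ φ 0 z) = 1 := PB.rk0 A ξ φ z
    show rk (PB.e ξ φ 1 z) = k
    omega
  · show PB.e ξ φ 0 _ (PB.e ξ φ 0 _ w) + PB.e ξ φ 1 _ (PB.e ξ φ 1 _ w) = ξ.p z.1.1 w
    rw [PB.ee, PB.ee, if_pos rfl, if_pos rfl, PB.e_zero, PB.e_one, add_sub_cancel]
  · refine Prod.ext ?_ ?_
    · show PB.e ξ φ 0 z (PB.e ξ φ 0 z w.1 + PB.e ξ φ 1 z w.2) = PB.e ξ φ 0 z w.1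
      rw [map_add, PB.ee, PB.ee, if_pos rfl, if_neg (by decide), add_zero]
    · show PB.e ξ φ 1 z (PB.e ξ φ 0 z w.1 + PB.e ξ φ 1 z w.2) = PB.e ξ φ 1 z w.2
      rw [map_add, PB.ee, PB.ee, if_pos rfl, if_neg (by decide), zero_add]

section

variable {B K K' K'' : Type} [TopologicalSpace B] [CompactSpace B] [T2Space B] [TopologicalSpace K]
  [CompactSpace K] [T2Space K] [TopologicalSpace K'] [CompactSpace K'] [T2Space K']
  [TopologicalSpace K''] [CompactSpace K''] [T2Space K'']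

theorem pullR_comp (f : C(K', K)) (g : C(K'', K')) (x : h K) :
    pullR g (pullR f x) = pullR (f.comp g) x :=
  pull_comp f.continuous.isProperMap g.continuous.isProperMap x

theorem deg_mul (A : Api) {d e : ℤ} {x y : h K} (hx : IsDeg d x) (hy : IsDeg e y) :
    IsDeg (d + e) (x * y) := by
  rw [IsDeg, mul_def, A.deg.prod _ _ d e x hx, hy]

theorem deg_pow (A : Api) {x : h K} (hx : IsDeg 1 x) (n : ℕ) : IsDeg n (x ^ n) := by
  induction n with
  | zero => rw [pow_zero]; exact A.deg.one K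
  | succ n ih => rw [pow_succ, Nat.cast_succ]; exact deg_mul A ih hx

/-- The projective bundle theorem in even degrees over a compact base. -/
theorem pbt_even (A : Api) (p : S_PBT) (ξ : Bun K) (k N : ℕ) (φ : FD.std N ≃L[ℂ] ξ.W)
    (π : C(K', K)) (q : C(K', CP N N)) (hk : ξ.Rk k) (hp : IsPr ξ φ π q) :
    Function.Bijective fun c : Fin k → h K =>
      ∑ i : Fin k, pullR q (eu (taut N N)) ^ (i : ℕ) * pullR π (c i) := by
  have h1 := (p ξ k N φ π q hk hp).2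
  have h2 : ∀ c : Fin k → H K, (∑ i : Fin k, Hact q (eu (taut N N) ^ (i : ℕ)) (Hpull π (c i))).1 =
      ∑ i : Fin k, pullR q (eu (taut N N)) ^ (i : ℕ) * pullR π (c i).1 := fun c => by
    rw [Prod.fst_sum]
    refine Finset.sum_congr rfl fun i _ => ?_
    rw [← map_pow, ← A.act.self]
    rfl
  have h3 : ∀ c : Fin k → h K,
      (∑ i : Fin k, Hact q (eu (taut N N) ^ (i : ℕ)) (Hpull π (c i, 0))).2 = 0 := fun c => by
    rw [Prod.snd_sum]
    refine Finset.sum_eq_zero fun i _ => ?_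
    show act _ _ (pull _ 0) = 0
    rw [map_zero, map_zero]
  refine ⟨fun c c' e => ?_, fun z => ?_⟩
  · have := h1.1 (a₁ := fun i => (c i, 0)) (a₂ := fun i => (c' i, 0))
      (Prod.ext ((h2 fun i => (c i, 0)).trans (e.trans (h2 fun i => (c' i, 0)).symm))
        ((h3 c).trans (h3 c').symm))
    exact funext fun i => congrArg Prod.fst (congrFun this i)
  · obtain ⟨c, hc⟩ := h1.2 (z, 0)
    exact ⟨fun i => (c i).1, (h2 c).symm.trans (congrArg Prod.fst hc)⟩

/-- The span of the terms of positive degree in the second factor. -/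
def Spn (a : ℕ → ℕ → UU) (v : h B) (K : Type) [TopologicalSpace K] [CompactSpace K] [T2Space K] :
    AddSubgroup (h (B × K)) :=
  AddSubgroup.closure {z | ∃ c ∈ Subring.closure (range fun q : ℕ × ℕ => a q.1 q.2),
    ∃ (i : ℕ) (e : ℤ) (y : h K), 0 < e ∧ IsDeg e y ∧
      z = toU _ c * pullR ContinuousMap.fst v ^ i * pullR ContinuousMap.snd y}

theorem Spn.pow_mul {a : ℕ → ℕ → UU} {v : h B} {z : h (B × K)} (hz : z ∈ Spn a v K) (n : ℕ) :
    pullR ContinuousMap.fst v ^ n * z ∈ Spn a v K := by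
  induction hz using AddSubgroup.closure_induction with
  | mem z hz =>
    obtain ⟨c, hc, i, e, y, he, hy, rfl⟩ := hz
    exact AddSubgroup.subset_closure ⟨c, hc, n + i, e, y, he, hy, by rw [pow_add]; ring⟩
  | zero => rw [mul_zero]; exact zero_mem _
  | add x y _ _ hx hy => rw [mul_add]; exact add_mem hx hy
  | neg x _ hx => rw [mul_neg]; exact neg_mem hx

theorem Spn.mul (A : Api) {a : ℕ → ℕ → UU} {v : h B} {z w : h (B × K)} (hz : z ∈ Spn a v K)
    (hw : w ∈ Spn a v K) : z * w ∈ Spn a v K := by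
  induction hz, hw using AddSubgroup.closure_induction₂ with
  | mem z w hz hw =>
    obtain ⟨c, hc, i, e, y, he, hy, rfl⟩ := hz
    obtain ⟨c', hc', i', e', y', he', hy', rfl⟩ := hw
    exact AddSubgroup.subset_closure ⟨c * c', mul_mem hc hc', i + i', e + e', y * y',
      add_pos he he', deg_mul A hy hy', by rw [pow_add, map_mul, map_mul]; ring⟩
  | zero_left => rw [zero_mul]; exact zero_mem _
  | zero_right => rw [mul_zero]; exact zero_mem _
  | add_left x y z _ _ _ hx hy => rw [add_mul]; exact add_mem hx hy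
  | add_right x y z _ _ _ hx hy => rw [mul_add]; exact add_mem hx hy
  | neg_left x y _ _ hx => rw [neg_mul]; exact neg_mem hx
  | neg_right x y _ _ hx => rw [mul_neg]; exact neg_mem hx

/-- Descent along a projective bundle. -/
theorem Spn.desc (A : Api) (p : S_PBT) {a : ℕ → ℕ → UU} {v : h B} (ξ : Bun K) {k N : ℕ}
    (φ : FD.std N ≃L[ℂ] ξ.W) (hk : ξ.Rk (k + 1)) {w : h (B × K)}
    (hw : pullR ((ContinuousMap.id B).prodMap (PB.pr ξ φ)) w ∈ Spn a v (PB ξ φ)) :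
    w ∈ Spn a v K := by
  have b1 := pbt_even A p ξ (k + 1) N φ _ _ hk (PB.isPr ξ φ)
  have b2 := pbt_even A p (ξ.pull (ContinuousMap.snd : C(B × K, K))) (k + 1) N φ _ _
    (fun x => hk _) (PB.isPr' ξ φ B)
  set π' := (ContinuousMap.id B).prodMap (PB.pr ξ φ) with hπ'
  set t' := pullR ((PB.ln ξ φ).comp (ContinuousMap.snd : C(B × PB ξ φ, _))) (eu (taut N N)) with ht'
  set t := pullR (PB.ln ξ φ) (eu (taut N N)) with ht
  have td : IsDeg 1 t := by
    rw [ht, A.eul.pull]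
    exact A.eul.deg _ 1 fun x => A.bun.rk_taut N N _
  have key : ∀ z ∈ Spn a v (PB ξ φ), ∃ c : Fin (k + 1) → h (B × K),
      ∑ i : Fin (k + 1), t' ^ (i : ℕ) * pullR π' (c i) = z ∧ c 0 ∈ Spn a v K := by
    intro z hz
    induction hz using AddSubgroup.closure_induction with
    | mem z hz =>
      obtain ⟨c, hc, n, e, y, he, hy, rfl⟩ := hz
      obtain ⟨b, hb⟩ := b1.2 y
      have hb' : ∑ i : Fin (k + 1), t ^ (i : ℕ) * pullR (PB.pr ξ φ) (b i) = y := hb
      have hb0 : IsDeg e (b 0) := by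
        have := b1.1 (a₁ := fun i => part (e - (i : ℕ)) (b i)) (a₂ := b) (by
          refine Eq.trans ?_ (hy.trans hb'.symm)
          rw [← hb', map_sum]
          refine Finset.sum_congr rfl fun i _ => ?_
          have h1 := A.deg.prod (ContinuousMap.id _) (ContinuousMap.id _) i (e - (i : ℕ)) _
            (deg_pow A td i) (pullR (PB.pr ξ φ) (b i))
          rw [add_sub_cancel] at h1
          rw [mul_def, mul_def, h1, pullR_apply, pullR_apply, A.deg.pull])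
        have h2 := congrFun this 0
        simpa [IsDeg] using h2
      refine ⟨fun i => toU _ c * pullR ContinuousMap.fst v ^ n * pullR ContinuousMap.snd (b i), ?_,
        AddSubgroup.subset_closure ⟨c, hc, n, e, b 0, he, hb0, rfl⟩⟩
      rw [← hb', map_sum, Finset.mul_sum]
      refine Finset.sum_congr rfl fun i _ => ?_
      rw [map_mul, map_mul, map_mul, map_pow, map_pow, pullR_comp, pullR_comp, pullR_comp,
        pullR_comp, pullR_comp, mul_left_comm]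
      rfl
    | zero => exact ⟨0, by simp, zero_mem _⟩
    | add x y _ _ hx hy =>
      obtain ⟨c, hc, h0⟩ := hx
      obtain ⟨c', hc', h0'⟩ := hy
      refine ⟨c + c', ?_, add_mem h0 h0'⟩
      rw [← hc, ← hc', ← Finset.sum_add_distrib]
      exact Finset.sum_congr rfl fun i _ => by rw [Pi.add_apply, map_add, mul_add]
    | neg x _ hx =>
      obtain ⟨c, hc, h0⟩ := hx
      refine ⟨-c, ?_, neg_mem h0⟩
      rw [← hc, ← Finset.sum_neg_distrib]
      exact Finset.sum_congr rfl fun i _ => by rw [Pi.neg_apply, map_neg, mul_neg]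
  obtain ⟨c, hc, h0⟩ := key _ hw
  have := b2.1 (a₁ := c) (a₂ := Pi.single 0 w) (hc.trans (by
    show _ = ∑ i : Fin (k + 1), t' ^ (i : ℕ) * pullR π' ((Pi.single 0 w : Fin (k + 1) → _) i)
    rw [Finset.sum_eq_single 0 (fun i _ hi => by rw [Pi.single_eq_of_ne hi, map_zero, mul_zero])
      (fun hi => (hi (Finset.mem_univ _)).elim)]
    simp))
  rw [this, Pi.single_eq_same] at h0
  exact h0

omit C in
theorem tens_dual {X : Type} [TopologicalSpace X] (σ M : Bun X) :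
    (σ.hom (Bun.triv X FD.C)).Tens M (σ.hom M) := by
  refine ⟨ContinuousMap.const X (ContinuousLinearMap.smulRightL ℂ σ.W M.W), fun x f b hf hb => ?_⟩
  have h1 : ∀ w, f (σ.p x w) = f w := fun w => congrArg (fun g : σ.W →L[ℂ] ℂ => g w) hf
  refine ⟨ContinuousLinearMap.ext fun w => ?_, fun h0 => ?_⟩
  · show M.p x (f (σ.p x w) • b) = f w • b
    rw [map_smul, h1, hb]
  · by_cases hb0 : b = 0
    · exact Or.inr hb0
    · refine Or.inl (ContinuousLinearMap.ext fun w => ?_)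
      have h2 : f w • b = 0 := congrArg (fun g : σ.W →L[ℂ] M.W => g w) h0
      exact (smul_eq_zero.1 h2).resolve_right hb0

theorem rk_dual (A : Api) {X : Type} [TopologicalSpace X] (σ : Bun X) (hσ : σ.Rk 1) :
    (σ.hom (Bun.triv X FD.C)).Rk 1 := by
  have h1 := A.bun.rk_triv X FD.C
  rw [show FD.C.dim = 1 from Module.finrank_self ℂ] at h1
  exact A.bun.rk_hom σ _ 1 1 hσ h1

theorem expand_line (A : Api) {a : ℕ → ℕ → UU} (ha : IsFGL a) (σ : Bun B) (hσ : σ.Rk 1) (M : Bun K)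
    (hM : M.Rk 1) : eu ((σ.pull ContinuousMap.fst).hom (M.pull (ContinuousMap.snd : C(B × K, K)))) -
      pullR ContinuousMap.fst (eu (σ.hom (Bun.triv B FD.C))) ∈
        Spn a (eu (σ.hom (Bun.triv B FD.C))) K := by
  have r1 : (σ.pull (ContinuousMap.fst : C(B × K, B))).Rk 1 := fun x => hσ _
  have r2 : (M.pull (ContinuousMap.snd : C(B × K, K))).Rk 1 := fun x => hM _
  have e1 := ha.tens _ _ _ (rk_dual A _ r1) r2 (A.bun.rk_hom _ _ 1 1 r1 r2) (tens_dual _ _)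
  have e2 : eu ((σ.pull (ContinuousMap.fst : C(B × K, B))).hom (Bun.triv _ FD.C)) =
      pullR ContinuousMap.fst (eu (σ.hom (Bun.triv B FD.C))) :=
    (A.eul.pull ContinuousMap.fst (σ.hom (Bun.triv B FD.C))).symm
  have n1 := ha.nil _ (rk_dual A _ r1)
  have n2 := ha.nil _ r2
  rw [e1]
  rw [e2] at n1 ⊢
  rw [← A.eul.pull] at n2 ⊢
  set v := pullR (ContinuousMap.fst : C(B × K, B)) (eu (σ.hom (Bun.triv B FD.C))) with hv
  obtain ⟨n, hn⟩ := n1
  obtain ⟨m, hm⟩ := n2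
  have hn' : v ^ (n + m + 1) = 0 := by rw [add_assoc, pow_add, hn, zero_mul]
  have hm' : pullR (ContinuousMap.snd : C(B × K, K)) (eu M) ^ (n + m + 1) = 0 := by
    rw [pow_succ, pow_add, hm, mul_zero, zero_mul]
  have h1 : ∀ i, cf (toU (B × K)) a i 0 = if i = 1 then 1 else 0 := fun i => by
    rw [cf, ha.fg.unit]; split_ifs <;> simp
  have h2 : ∀ i j, cf (toU (B × K)) a i j = cf (toU (B × K)) a j i := fun i j => by
    rw [cf, cf, ha.fg.symm]
  have e3 := ((BG.sFm _ (cf (toU (B × K)) a) v v).2.2.2 h1 h2 ⟨n, hn⟩ ⟨n, hn⟩).2.1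
  have e4 := (BG.sFm _ (cf (toU (B × K)) a) v 0).1 _ hn' (zero_pow (Nat.succ_ne_zero _))
  rw [(BG.sFm _ _ _ _).1 _ hn' hm']
  nth_rewrite 2 [← e3]
  rw [e4, ← Finset.sum_sub_distrib]
  refine sum_mem fun i _ => ?_
  rw [← Finset.sum_sub_distrib]
  refine sum_mem fun j _ => ?_
  rcases Nat.eq_zero_or_pos j with rfl | hj
  · rw [pow_zero, pow_zero, sub_self]; exact zero_mem _
  · rw [zero_pow hj.ne', mul_zero, mul_zero, sub_zero]
    exact AddSubgroup.subset_closure ⟨a i j, Subring.subset_closure ⟨(i, j), rfl⟩, i, j, eu M ^ j,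
      Int.natCast_pos.2 hj, deg_pow A (A.eul.deg M 1 hM) j, by rw [map_pow, mul_assoc]; rfl⟩

end

/-- The Euler class of `Hom (σ, ξ)` is `v ^ k` up to terms of positive degree in the base of `ξ`. -/
theorem expand (A : Api) (p : S_PBT) {a : ℕ → ℕ → UU} (ha : IsFGL a) {B : Type}
    [TopologicalSpace B] [CompactSpace B] [T2Space B] (σ : Bun B) (hσ : σ.Rk 1) (k : ℕ) :
    ∀ {K : Type} [TopologicalSpace K] [CompactSpace K] [T2Space K] (ξ : Bun K), ξ.Rk k →
      eu ((σ.pull ContinuousMap.fst).hom (ξ.pull (ContinuousMap.snd : C(B × K, K)))) -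
        pullR ContinuousMap.fst (eu (σ.hom (Bun.triv B FD.C))) ^ k ∈
          Spn a (eu (σ.hom (Bun.triv B FD.C))) K := by
  induction k with
  | zero =>
    intro K _ _ _ ξ hξ
    have h0 : ∀ x, ξ.p x = 0 := fun x => by
      have h1 := Submodule.finrank_eq_zero.1 (hξ x)
      rw [LinearMap.range_eq_bot] at h1
      exact ContinuousLinearMap.ext fun w => congrArg (fun q : ξ.W →ₗ[ℂ] ξ.W => q w) h1
    have e1 : eu ((σ.pull ContinuousMap.fst).hom (ξ.pull (ContinuousMap.snd : C(B × K, K)))) = 1 := by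
      refine (A.tw.zero _ _ isProperMap_id (fun x => ?_) 1).trans (pull_id _)
      refine ContinuousLinearMap.ext fun f => ?_
      show ξ.p x.2 ∘L f ∘L σ.p x.1 = 0
      rw [h0, ContinuousLinearMap.zero_comp]
    rw [pow_zero, e1, sub_self]
    exact zero_mem _
  | succ k ih =>
    intro K _ _ _ ξ hξ
    let φ : FD.std ξ.W.dim ≃L[ℂ] ξ.W :=
      ContinuousLinearEquiv.ofFinrankEq (by simp)
    refine Spn.desc A p ξ φ hξ ?_
    have e1 := A.eul.split _ _ (A.bun.split_hom (σ.pull ContinuousMap.fst) _ _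
      (PB.split ξ φ (ContinuousMap.snd : C(B × PB ξ φ, _))))
    rw [Fin.prod_univ_two] at e1
    have h1 := expand_line A ha σ hσ _ (PB.rk0 A ξ φ)
    have h2 := ih _ (PB.rk1 A ξ φ hξ)
    rw [map_sub, map_pow, pullR_comp, A.eul.pull]
    refine (congrArg (· ∈ _) ?_).mp (add_mem (add_mem (Spn.mul A h1 h2) (Spn.pow_mul h1 k))
      (Spn.pow_mul h2 1))
    refine Eq.trans ?_ (congrArg₂ (· - ·) e1.symm
      (rfl : pullR ContinuousMap.fst (eu (σ.hom (Bun.triv B FD.C))) ^ (k + 1) = _))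
    ring

theorem d4 (A : Api) (p : S_PBT) : S_D4 := by
  intro a ha B K _ _ _ _ _ _ σ ξ k hσ hξ
  have hcr : ∀ (c : h B) (y : h K), cr c y = pullR ContinuousMap.fst c * pullR ContinuousMap.snd y :=
    fun c y => A.act.self _ _ _
  rw [hcr, map_one, mul_one, map_pow]
  refine AddSubgroup.closure_mono ?_ (expand A p ha σ hσ k ξ hξ)
  rintro z ⟨c, hc, i, e, y, he, hy, rfl⟩
  refine ⟨toU B c * eu (dual σ) ^ i, mul_mem ?_ (pow_mem (Subring.subset_closure (mem_insert _ _)) i),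
    e, he, y, hy, ?_⟩
  · have : Subring.closure (range fun q : ℕ × ℕ => a q.1 q.2) ≤ (AA a (eu (dual σ))).comap (toU B) := by
      rw [Subring.closure_le]
      rintro _ ⟨q, rfl⟩
      exact Subring.subset_closure (mem_insert_of_mem _ ⟨q, rfl⟩)
    exact this hc
  · rw [hcr, map_mul, map_pow, pullR_comp]
    rfl

end

end Pool.Agent.MP_826def_gt.BD
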