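import Pool.Agent.MP_826def_gt.BD.Spec
import Pool.Agent.MP_826def_gt.BA.Pull

/-!
The quadratic construction, its restriction to the zero section and to a point.
-/

namespace Pool.Agent.MP_826def_gt.BD

open Set Topology Pool.Agent.MP_826def_gt.MU Pool.Agent.MP_826def_gt.D59

noncomputable section

section tot

variable {Y : Type} [TopologicalSpace Y] (ζ : Bun Y)

/-- The total space. -/
def Tot : Type := {z : Y × ζ.W // ζ.p z.1 z.2 = z.2}

instance : TopologicalSpace (Tot ζ) := instTopologicalSpaceSubtype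

def Tot.π : C(Tot ζ, Y) := ⟨fun z => z.1.1, continuous_subtype_val.fst⟩

def Tot.t : C(Tot ζ, ζ.W) := ⟨fun z => z.1.2, continuous_subtype_val.snd⟩

def Tot.zs : C(Y, Tot ζ) := ⟨fun y => ⟨(y, 0), map_zero _⟩, Continuous.subtype_mk (by fun_prop) _⟩

theorem Tot.isTot : IsTot ζ (Tot.π ζ) (Tot.t ζ) :=
  ⟨IsEmbedding.subtypeVal, Subtype.range_coe_subtype⟩

theorem Tot.proper : IsProperMap fun z : Tot ζ => z.1 :=
  IsClosed.isProperMap_subtypeVal (C := {z : Y × ζ.W | ζ.p z.1 z.2 = z.2})
    (isClosed_eq ((ζ.p.continuous.comp continuous_fst).clm_apply continuous_snd) continuous_snd)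

end tot

/-- A map with a continuous left inverse into a Hausdorff space is proper. -/
theorem proper_of_left {X Y : Type} [TopologicalSpace X] [TopologicalSpace Y] [T2Space Y]
    {f : X → Y} {g : Y → X} (hf : Continuous f) (hg : Continuous g) (e : ∀ x, g (f x) = x) :
    IsProperMap f := (Function.LeftInverse.isClosedEmbedding e hg hf).isProperMap

theorem czero_good {B X : Type} [TopologicalSpace B] [CompactSpace B] [TopologicalSpace X]
    (σ : Bun B) {c : Raw X} (hc : c.Good) : (czero σ c).Good := by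
  have hk : Continuous fun z : (B × X) × c.V => (z.1.2, z.2) := by fun_prop
  have hp : ContinuousOn (fun z : (B × X) × c.V => c.p (z.1.2, z.2)) (czero σ c).O :=
    hc.cp.comp hk.continuousOn fun z hz => hz
  have hσ : Continuous fun z : (B × X) × c.V => σ.p z.1.1 := by fun_prop
  refine ⟨hc.op.preimage hk, continuousOn_clm_apply.2 fun y => ?_,
    (hc.cs.comp hk.continuousOn fun z hz => hz).prodMk continuousOn_const, fun z hz => ?_,
    fun z hz => Prod.ext (hc.sec _ hz) (map_zero (Bun.conj (σ.p z.1.1) (c.p (z.1.2, z.2)))), ?_⟩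
  · exact (hp.clm_apply continuousOn_const).prodMk
      (hp.clm_comp (continuousOn_const.clm_comp hσ.continuousOn))
  · refine ContinuousLinearMap.ext fun y => Prod.ext
      (congrArg (fun r : c.W →L[ℂ] c.W => r y.1) (hc.idem _ hz)) ?_
    show c.p _ ∘L (c.p _ ∘L y.2 ∘L σ.p _) ∘L σ.p _ = c.p _ ∘L y.2 ∘L σ.p _
    rw [ContinuousLinearMap.comp_assoc, ContinuousLinearMap.comp_assoc, σ.idem,
      ← ContinuousLinearMap.comp_assoc, hc.idem _ hz]
  · have h1 := ((isProperMap_snd_of_compactSpace (X := B) (Y := X)).prodMap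
      (isProperMap_id (X := c.V))).isCompact_preimage hc.cpt
    have e : (czero σ c).Z = Prod.map Prod.snd id ⁻¹' c.Z :=
      Set.ext fun z => ⟨fun hz => ⟨hz.1, congrArg Prod.fst hz.2⟩,
        fun hz => ⟨hz.1, Prod.ext hz.2 rfl⟩⟩
    rw [e]
    exact h1

/-- The change of coordinates `(v₁, v₂) ↦ ((v₁ - v₂) / 2, (v₁ + v₂) / 2)`. -/
def rot (V : FD) : (V × V) ≃L[ℂ] V × V :=
  LinearEquiv.toContinuousLinearEquiv
    { toFun := fun z => (z.2 + z.1, z.2 - z.1)
      invFun := fun z => ((2⁻¹ : ℂ) • (z.1 - z.2), (2⁻¹ : ℂ) • (z.1 + z.2))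
      map_add' := fun a b => Prod.ext (by simp only [Prod.fst_add, Prod.snd_add]; abel)
        (by simp only [Prod.fst_add, Prod.snd_add]; abel)
      map_smul' := fun r a => Prod.ext (smul_add r _ _).symm (smul_sub r _ _).symm
      left_inv := fun a => Prod.ext (by dsimp only; module) (by dsimp only; module)
      right_inv := fun a => Prod.ext (by dsimp only; module) (by dsimp only; module) }

theorem rot_apply (V : FD) (z : V × V) : rot V z = (z.2 + z.1, z.2 - z.1) := rfl

variable [C : Fact Core]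

theorem d5 (A : Api) (t : S_Thom) : S_D5 := by
  intro S B X _ _ _ _ _ _ _ σ D c hc
  have g1 := C.out.good1
  refine ⟨czero_good σ hc, ?_⟩
  let ζ : Bun (B × X) := (σ.pull ContinuousMap.fst).hom (Bun.triv (B × X) c.V)
  have hQ : (D.Q c (fun z : Tot ζ => z.1.1.1) (fun z => z.1.1.2) fun z => z.1.2).Good :=
    D.Q_good hc (Tot.proper ζ) fun z => z.2
  obtain ⟨hT, hB, -⟩ := t ζ (Tot.π ζ) (Tot.t ζ) (Tot.isTot ζ)
  obtain ⟨P, hP⟩ := hB.2 (cls (D.Q c (fun z : Tot ζ => z.1.1.1) (fun z => z.1.1.2) fun z => z.1.2))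
  have : T2Space (Tot ζ) := inferInstanceAs (T2Space {z : (B × X) × ζ.W // ζ.p z.1 z.2 = z.2})
  refine ⟨P, ?_, fun b => ?_⟩
  · have hz : IsProperMap (Tot.zs ζ) :=
      proper_of_left (Tot.zs ζ).continuous (Tot.π ζ).continuous fun _ => rfl
    have h1 := (A.tw.pull_twist _ _ _ (Tot.zs ζ) hT hz).2 P
    rw [hP, pull_cls hz hQ] at h1
    refine Eq.trans h1.symm ?_
    refine BA.cls_const g1 _ (czero σ c) (g1.pull hQ hz) (czero_good σ hc)
      (ContinuousLinearEquiv.refl ℂ c.V)
      (((2⁻¹ : ℂ) • ContinuousLinearMap.id ℂ c.W).prodMap (ContinuousLinearMap.id ℂ _))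
      (((2 : ℂ) • ContinuousLinearMap.id ℂ c.W).prodMap (ContinuousLinearMap.id ℂ _))
      (ContinuousLinearMap.ext fun y => Prod.ext ?_ rfl) (fun z => ?_) (fun z _ => ?_)
      fun z _ => ?_
    · show (2 : ℂ) • (2⁻¹ : ℂ) • y.1 = y.1
      module
    · show _ ↔ (z.1.2, z.2 + 0) ∈ c.O ∧ (z.1.2, z.2 - 0) ∈ c.O
      rw [add_zero, sub_zero, and_self]
      rfl
    · show _ = _ ∘L Qop (D.u (D.sec z.1.1)) (D.l (D.sec z.1.1)) (c.p (z.1.2, z.2 + 0))
        (c.p (z.1.2, z.2 - 0)) ∘L _
      rw [add_zero, sub_zero, Qop_diag, ← D.pq, D.q_sec]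
      refine ContinuousLinearMap.ext fun y => Prod.ext ?_ rfl
      show c.p _ y.1 = (2⁻¹ : ℂ) • c.p _ ((2 : ℂ) • y.1)
      rw [map_smul]
      module
    · show _ = ContinuousLinearMap.prodMap _ _
        (Jm c.W (D.l (D.sec z.1.1)) (c.s (z.1.2, z.2 + 0), c.s (z.1.2, z.2 - 0)))
      rw [add_zero, sub_zero, Jm_apply]
      refine Prod.ext ?_ ?_
      · show c.s _ = (2⁻¹ : ℂ) • (c.s _ + c.s _)
        module
      · show 0 = (D.l _).smulRight (c.s _ - c.s _)
        rw [sub_self]
        exact ContinuousLinearMap.ext fun e => (smul_zero _).symm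
  · have hp : σ.p b = (D.l (D.sec b)).smulRight (D.u (D.sec b)) := by rw [← D.pq, D.q_sec]
    have hl := D.lu (D.sec b)
    let φ : C(X × c.V, Tot ζ) :=
      ⟨fun z => ⟨((b, z.1), (D.l (D.sec b)).smulRight z.2), ContinuousLinearMap.ext fun e => by
        show D.l (D.sec b) (σ.p b e) • z.2 = D.l (D.sec b) e • z.2
        rw [hp, ContinuousLinearMap.smulRight_apply, map_smul, hl, smul_eq_mul, mul_one]⟩,
        Continuous.subtype_mk (Continuous.prodMk (by fun_prop)
          ((ContinuousLinearMap.smulRightL ℂ σ.W c.V (D.l (D.sec b))).continuous.comp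
            continuous_snd)) _⟩
    have hφ : IsProperMap φ :=
      proper_of_left (g := fun z : Tot ζ => (z.1.1.2, z.1.2 (D.u (D.sec b)))) φ.continuous
        (continuous_subtype_val.fst.snd.prodMk
          (continuous_subtype_val.snd.clm_apply continuous_const)) fun z => Prod.ext rfl (by
        show D.l (D.sec b) (D.u (D.sec b)) • z.2 = z.2
        rw [hl, one_smul])
    have hs : IsProperMap (slice X b) :=
      proper_of_left (slice X b).continuous continuous_snd fun _ => rfl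
    obtain ⟨h0, h1⟩ := A.tw.pull_twist _ _ _ φ hT hφ
    have h2 := (A.tw.iso _ _ (Bun.triv (X × c.V) c.V) _ ContinuousMap.snd
      (ContinuousMap.const _ (ContinuousLinearMap.apply ℂ c.V (D.u (D.sec b))))
      (ContinuousMap.const _ (ContinuousLinearMap.smulRightL ℂ σ.W c.V (D.l (D.sec b)))) h0
      fun z => ⟨ContinuousLinearMap.ext fun M => ContinuousLinearMap.ext fun e => by
          show D.l (D.sec b) e • M (D.u (D.sec b)) = M (σ.p b e)
          rw [hp, ContinuousLinearMap.smulRight_apply, map_smul],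
        ContinuousLinearMap.ext fun w => by
          show D.l (D.sec b) (D.u (D.sec b)) • w = w
          rw [hl, one_smul], by
          show D.l (D.sec b) (D.u (D.sec b)) • z.2 = z.2
          rw [hl, one_smul]⟩).2 P
    have h3 := (A.tw.twist_pull _ _ _ (slice X b) (A.pv.th (X := X) c.V).1 hs).2 P
    have h4 := (A.pv.th (X := X) c.V).2 (pull (slice X b) P)
    have h5 : pull (slice X b) P = pushV c.V (pull φ (cls (D.Q c (fun z : Tot ζ => z.1.1.1)
        (fun z => z.1.1.2) fun z => z.1.2))) := by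
      rw [← h4, h3, ← hP, h1 P, h2]
      rfl
    have hI := pr_id (ContinuousMap.id X)
    rw [h5, pull_cls hφ hQ, pushV_cls _ (g1.pull hQ hφ), prod_cls hI hc hc]
    have e1 : ∀ a : c.V, (D.l (D.sec b)).smulRight a (D.u (D.sec b)) = a := fun a => by
      rw [ContinuousLinearMap.smulRight_apply, hl, one_smul]
    refine (BA.cls_const g1 (c.prod c _ _) _ (C.out.good2.prod hc hc hI)
      (g1.pushV c.V (g1.pull hQ hφ)) (rot c.V) (Jm c.W (D.l (D.sec b))) (Rm c.W (D.u (D.sec b)))
      (ContinuousLinearMap.ext fun y => Rm_Jm hl y) (fun z => ?_) (fun z _ => ?_)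
      fun z _ => ?_).symm
    · show (z.1, z.2.2 + (D.l (D.sec b)).smulRight z.2.1 (D.u (D.sec b))) ∈ c.O ∧
        (z.1, z.2.2 - (D.l (D.sec b)).smulRight z.2.1 (D.u (D.sec b))) ∈ c.O ↔ _
      rw [e1]
      rfl
    · show Qop _ _ (c.p (z.1, z.2.2 + (D.l (D.sec b)).smulRight z.2.1 (D.u (D.sec b))))
        (c.p (z.1, z.2.2 - (D.l (D.sec b)).smulRight z.2.1 (D.u (D.sec b)))) = _
      rw [e1]
      rfl
    · show Jm _ _ (c.s (z.1, z.2.2 + (D.l (D.sec b)).smulRight z.2.1 (D.u (D.sec b))),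
        c.s (z.1, z.2.2 - (D.l (D.sec b)).smulRight z.2.1 (D.u (D.sec b)))) = _
      rw [e1]
      rfl

end

end Pool.Agent.MP_826def_gt.BD
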