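import Pool.Agent.MP_826def_gt.BD.Spec

/-! The class on the zero section. -/

namespace Pool.Agent.MP_826def_gt.BD

open Set Topology Pool.Agent.MP_826def_gt.MU

noncomputable section

variable [C : Fact Core]

namespace X6

variable {B X Y K : Type} [TopologicalSpace B] [CompactSpace B] [T2Space B] [TopologicalSpace X]
  [TopologicalSpace Y] [TopologicalSpace K] [CompactSpace K] [T2Space K] {V : FD}

/-- The embedding after the product with `B`. -/
abbrev emb (B : Type) [TopologicalSpace B] (ι : C(Y, X × V)) : C(B × Y, (B × X) × V) :=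
  ⟨fun z => ((z.1, (ι z.2).1), (ι z.2).2), by fun_prop⟩

omit C [CompactSpace B] [T2Space B] in
theorem emb_open {ι : C(Y, X × V)} (hι : IsOpenEmbedding ι) : IsOpenEmbedding (emb B ι) :=
  (Homeomorph.prodAssoc B X V).symm.isOpenEmbedding.comp (IsOpenEmbedding.id.prodMap hι)

omit C [T2Space B] in
theorem snd_proper (Y : Type) [TopologicalSpace Y] :
    IsProperMap (ContinuousMap.snd : C(B × Y, Y)) := isProperMap_snd_of_compactSpace

theorem cr_push (A : Api) {ι : C(Y, X × V)} (hι : IsOpenEmbedding ι) (κ : C(Y, K)) (u : h Y)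
    (a : h B) (y : h K) :
    pushV V (push (emb B ι) (act ((ContinuousMap.id B).prodMap κ) (cr a y)
      (pull ContinuousMap.snd u))) = cr a (pushV V (push ι (act κ y u))) := by
  have e1 : act ((ContinuousMap.id B).prodMap κ) (cr a y) (pull ContinuousMap.snd u) =
      act ((ContinuousMap.fst.comp ContinuousMap.fst).comp (emb B ι)) a
        (pull ContinuousMap.snd (act κ y u)) := by
    rw [cr, A.act.self (ContinuousMap.fst : C(B × K, B)), map_mul, AddMonoid.End.coe_mul,
      Function.comp_apply, (A.act.base _ _ _).1, ← pullR_apply,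
      (A.act.base _ _ _).1, (A.act.pull _ _ _).1]
    rfl
  rw [e1, (A.act.push _ _ _).1, A.act.pushV, cr, A.pv.pull _ _ (snd_proper X)]
  rw [(A.fn.bc (ContinuousMap.snd.prodMap (ContinuousMap.id V)) ι (emb B ι) ContinuousMap.snd
    ((snd_proper X).prodMap isProperMap_id) hι (emb_open hι) (fun _ => rfl) ?_).2]
  rintro ⟨⟨b, x⟩, v⟩ ⟨y, hy⟩
  refine ⟨(b, y), ?_⟩
  show ((b, (ι y).1), (ι y).2) = _
  rw [hy]
  rfl

end X6

theorem d6 (A : Api) (h4 : S_D4) : S_D6 := by
  intro a ha B X _ _ _ _ _ _ σ c k d hσ hc hz hk hd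
  obtain ⟨K, hK, hZK, hKO⟩ := exists_compact_between hc.cpt hc.op fun z hz => hz.1
  have : CompactSpace K := isCompact_iff_compactSpace.1 hK
  let ξ : Bun K := ⟨c.W, ⟨fun z => c.p z.1, (hc.cp.mono hKO).domRestrict⟩,
    fun z => hc.idem _ (hKO z.2)⟩
  let ι : C(interior K, X × c.V) := ⟨Subtype.val, continuous_subtype_val⟩
  have hι : IsOpenEmbedding ι := isOpen_interior.isOpenEmbedding_subtypeVal
  let κ : C(interior K, K) := ⟨Set.inclusion interior_subset, continuous_inclusion _⟩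
  have hr : ∀ z ∈ c.lift.Z, z.1 ∈ range ι := fun z hz => ⟨⟨z.1, hZK hz⟩, rfl⟩
  have hg : (c.lift.pull ι).Good := C.out.good1.pullO (C.out.good1.lift hc) hι.isEmbedding hr
  have hu : IsDeg k (cls (c.lift.pull ι)) := A.deg.of_rk _ _ hg fun z hz => by
    have := hk _ hz.1
    simp only [FD.dim, Module.finrank_zero_of_subsingleton, Nat.cast_zero, add_zero]
    exact congrArg _ this
  let Ψ : h (B × K) →+ h (B × X) := (pushV c.V).comp ((push (X6.emb B ι)).comp
    (AddMonoidHom.flip (act ((ContinuousMap.id B).prodMap κ)).toAddMonoidHom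
      (pull ContinuousMap.snd (cls (c.lift.pull ι)))))
  have hΨ : ∀ w, Ψ w = pushV c.V (push (X6.emb B ι) (act ((ContinuousMap.id B).prodMap κ) w
      (pull ContinuousMap.snd (cls (c.lift.pull ι))))) := fun _ => rfl
  have e1 : Ψ (cr (eu (dual σ) ^ k) 1) = cr (eu (dual σ) ^ k) (cls c) := by
    rw [hΨ, X6.cr_push A hι, map_one, AddMonoid.End.one_apply,
      A.fn.push_res ι _ hι (C.out.good1.lift hc) hr, A.pv.lift c hc]
  have e2 : Ψ (eu ((σ.pull ContinuousMap.fst).hom (ξ.pull ContinuousMap.snd))) =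
      cls (czero σ c) := by
    rw [hΨ, ← (A.eul.act _ _).1, pull_cls (X6.snd_proper _) hg,
      twist_cls (A.tw.tw_id _ _ fun x => map_zero _).1 (C.out.good1.pull hg (X6.snd_proper _)),
      ← A.pv.lift _ hz, ← A.fn.push_res (X6.emb B ι) _ (X6.emb_open hι) (C.out.good1.lift hz) ?_]
    · rfl
    · rintro ⟨⟨⟨b, x⟩, v⟩, o⟩ hz
      exact ⟨(b, ⟨(x, v), hZK ⟨hz.1, congrArg Prod.fst hz.2⟩⟩), rfl⟩
  rw [← e1, ← e2, ← map_sub]
  have := h4 a ha σ ξ k hσ fun z => hk _ (hKO z.2)
  refine (AddSubgroup.closure_le ((Hi a (eu (dual σ)) X d).comap Ψ)).2 ?_ this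
  rintro _ ⟨c', hc', e, he, y, hy, rfl⟩
  refine AddSubgroup.subset_closure ⟨c', hc', e + d, by omega, _, ?_, X6.cr_push A hι κ _ c' y⟩
  rw [IsDeg, A.deg.pushV, A.deg.push, act_def, show e + d + c.V.dim = e + k by omega,
    A.deg.prod _ _ _ _ _ hy, hu]

end

end Pool.Agent.MP_826def_gt.BD
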