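import Pool.Agent.MP_826def_gt.BD.Spec

/-!
The descent from its steps.
-/

namespace Pool.Agent.MP_826def_gt.BD

open Set Topology Pool.Agent.MP_826def_gt.MU Pool.Agent.MP_826def_gt.D59

noncomputable section

variable [C : Fact Core]

theorem act_act {X K : Type} [TopologicalSpace X] [TopologicalSpace K] [CompactSpace K] [T2Space K]
    (f : C(X, K)) (a b : h K) (x : h X) : act f (a * b) x = act f a (act f b x) := by
  rw [map_mul]
  rfl

theorem quillen_of (A : Api) (h1 : S_D1) (h3 : S_D3) (h5 : S_D5) (h6 : S_D6) : S_Q := by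
  intro a ha X _ _ _ R hRa hRp hR2 d hd hRe x hx
  obtain ⟨c, hc, rfl, hrk⟩ := A.deg.rep d x hx
  rcases c.Z.eq_empty_or_nonempty with hZ | ⟨z₀, hz₀⟩
  · rw [cls_empty hc hZ, map_zero, sub_zero, ite_self]
    exact R.zero_mem
  obtain ⟨k, hk0⟩ : ∃ k, rk (c.p z₀) = k := ⟨_, rfl⟩
  have hk : (k : ℤ) = d + c.V.dim := hk0 ▸ hrk z₀ hz₀.1
  have hrk' : ∀ z ∈ c.O, rk (c.p z) = k := fun z hz => by
    have := (hrk z hz).trans hk.symm
    exact_mod_cast this
  obtain ⟨q, hq⟩ : ∃ q : ℕ, c.V.dim = k + q := ⟨c.V.dim - k, by omega⟩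
  obtain ⟨⟨S, _, _, ⟨D⟩⟩, hiso, -⟩ := h1 (2 * k + 1) (2 * k + 1)
  obtain ⟨b⟩ := (h1 (2 * k + 1) 1).2.2 le_rfl (Nat.le_add_left 1 (2 * k))
  have hσ : (sg (2 * k + 1) (2 * k + 1)).Rk 1 := fun z => A.bun.rk_taut _ _ _
  have hv : eu (dual (sg (2 * k + 1) (2 * k + 1))) = vv (2 * k + 1) (2 * k + 1) :=
    (A.eul.iso _ _ hiso).symm
  obtain ⟨hz, P, hP, hb⟩ := h5 _ D c hc
  have h7 := h6 a ha _ c k d hσ hc hz hrk' hk
  have h8 : eu ((sg (2 * k + 1) (2 * k + 1)).hom (Bun.triv _ c.V)) =
      vv (2 * k + 1) (2 * k + 1) ^ (k + q) := by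
    rw [A.eul.split _ _ (A.bun.split_hom _ _ _ (A.bun.split_triv _ c.V)), Finset.prod_const,
      Finset.card_univ, Fintype.card_fin, hq, ← hv]
  have h9 := (A.eul.act (ContinuousMap.fst : C(RP (2 * k + 1) (2 * k + 1) × X, _))
    ((sg (2 * k + 1) (2 * k + 1)).hom (Bun.triv _ c.V))).1 P
  rw [h8] at h9
  have h10 : cls (czero (sg (2 * k + 1) (2 * k + 1)) c) =
      act ContinuousMap.fst (vv (2 * k + 1) (2 * k + 1) ^ (k + q)) P := hP.symm.trans h9
  rw [hv, h10] at h7
  have h11 := h3 a ha X R hRa hRp hR2 d hRe (2 * k + 1) k le_rfl b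
    (act ContinuousMap.fst (vv (2 * k + 1) (2 * k + 1) ^ q) P - pull ContinuousMap.snd (cls c)) (by
      rw [map_sub, ← act_act, ← pow_add]
      exact h7)
  generalize RP.incl (2 * k + 1) (Nat.le_add_left 1 (2 * k)) b = b' at h11
  have hs : IsProperMap (slice X b') :=
    (Function.LeftInverse.isClosedEmbedding (f := Prod.snd) (fun _ => rfl) continuous_snd
      (slice X b').continuous).isProperMap
  have h12 : pull (slice X b') (pull ContinuousMap.snd (cls c)) = cls c :=
    (pull_comp isProperMap_snd_of_compactSpace hs _).trans (pull_id _)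
  rw [map_sub, h12, (A.act.pull _ _ _).1, hb, map_sub, hx] at h11
  split_ifs with h0
  · have hq0 : q = 0 := by omega
    subst h0
    have h13 := A.deg.prod (ContinuousMap.id X) (ContinuousMap.id X) 0 0 _ hx (cls c)
    rw [add_zero, hx] at h13
    rwa [hq0, pow_zero, map_one, AddMonoid.End.one_apply, h13] at h11
  · obtain ⟨q', rfl⟩ : ∃ q', q = q' + 1 := ⟨q - 1, by omega⟩
    have h14 : ∀ y, act (ContinuousMap.fst.comp (slice X b')) (vv (2 * k + 1) (2 * k + 1)) y = 0 :=
      fun y => by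
        have e1 := (A.eul.act (ContinuousMap.fst.comp (slice X b'))
          (sg (2 * k + 1) (2 * k + 1))).1 y
        have e2 := (A.tw.tw_id ((sg (2 * k + 1) (2 * k + 1)).pull
          (ContinuousMap.fst.comp (slice X b'))) (ContinuousMap.const X (D.u (D.sec b')))
          fun x => by
            have e3 := D.pq (D.sec b')
            rw [D.q_sec] at e3
            show (sg (2 * k + 1) (2 * k + 1)).p b' (D.u (D.sec b')) = D.u (D.sec b')
            rw [e3, ContinuousLinearMap.smulRight_apply, D.lu, one_smul]).2 y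
        refine e1.symm.trans (e2.symm.trans (A.tw.empty _ _ _ (fun x e => ?_) y))
        have e4 := D.lu (D.sec b')
        rw [show D.u (D.sec b') = 0 from e, map_zero] at e4
        exact zero_ne_one e4
    rw [pow_succ, act_act, h14, map_zero, map_zero, zero_sub] at h11
    exact (R.neg_mem_iff).1 h11

end

end Pool.Agent.MP_826def_gt.BD
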