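import Pool.Agent.MP_826def_gt.BD.D1
import Pool.Agent.MP_826def_gt.BD.D2
import Pool.Agent.MP_826def_gt.BD.D3
import Pool.Agent.MP_826def_gt.BD.D4
import Pool.Agent.MP_826def_gt.BD.D5
import Pool.Agent.MP_826def_gt.BD.D6
import Pool.Agent.MP_826def_gt.BD.Glue

/-!
Quillen's descent.
-/

namespace Pool.Agent.MP_826def_gt.BD

open Pool.Agent.MP_826def_gt.MU

theorem quillen [Fact Core] (A : Api) (t : S_Thom) (g : S_Gys) (c : S_CPX) (p : S_PBT) : S_Q :=
  quillen_of A d1 (d3 A (d2 A g c)) (d5 A t) (d6 A (d4 A p))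

end Pool.Agent.MP_826def_gt.BD
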