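import Pool.Agent.MP_826def_gt.MU.Spec
import Pool.Agent.MP_826def_gt.D59.Q

/-!
Statements of the steps of the descent with the quadratic construction.
-/

namespace Pool.Agent.MP_826def_gt.BD

open Set Topology Pool.Agent.MP_826def_gt.MU Pool.Agent.MP_826def_gt.D59

noncomputable section

/-- The square of the tautological bundle. -/
abbrev sq (N m : ℕ) : Bun (CP N m) := tm (ContinuousMap.id (CP N m)) (ContinuousMap.id (CP N m))

/-- Real projective space as the sphere bundle of the square of the tautological bundle. -/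
def RP (N m : ℕ) : Type :=
  {z : CP N m × (Fin N → Fin N → ℂ) // (sq N m).p z.1 z.2 = z.2 ∧ ‖z.2‖ = 1}

instance (N m : ℕ) : MetricSpace (RP N m) := Subtype.metricSpace

instance (N m : ℕ) : CompactSpace (RP N m) := by
  refine isCompact_iff_compactSpace.1 (?_ : IsCompact {z : CP N m × (Fin N → Fin N → ℂ) | _})
  refine (isCompact_univ.prod (isCompact_sphere (0 : Fin N → Fin N → ℂ) 1)).of_isClosed_subset
    (IsClosed.inter (isClosed_eq (((sq N m).p.continuous.comp continuous_fst).clm_apply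
      continuous_snd) continuous_snd) (isClosed_eq continuous_snd.norm continuous_const))
    fun z hz => ⟨mem_univ _, by simpa using hz.2⟩

def RP.π (N m : ℕ) : C(RP N m, CP N m) := ⟨fun z => z.1.1, continuous_subtype_val.fst⟩

def RP.τ (N m : ℕ) : C(RP N m, (sq N m).W) := ⟨fun z => z.1.2, continuous_subtype_val.snd⟩

def RP.incl (N : ℕ) {m m' : ℕ} (hm : m ≤ m') : C(RP N m, RP N m') :=
  ⟨fun z => ⟨(CP.incl N hm z.1.1, z.1.2), z.2⟩, Continuous.subtype_mk
    (((CP.incl N hm).continuous.comp continuous_subtype_val.fst).prodMk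
      continuous_subtype_val.snd) _⟩

/-- The tautological bundle on real projective space. -/
abbrev sg (N m : ℕ) : Bun (RP N m) := (taut N m).pull (RP.π N m)

/-- The dual bundle. -/
abbrev dual {B : Type} [TopologicalSpace B] (σ : Bun B) : Bun B := σ.hom (Bun.triv B FD.C)

/-- The slice of `B × X` over a point. -/
abbrev slice {B : Type} [TopologicalSpace B] (X : Type) [TopologicalSpace X] (b : B) :
    C(X, B × X) := ⟨fun x => (b, x), by fun_prop⟩

/-- The cocycle `c` on `B × X`, with the bundle of homomorphisms from `σ` added. -/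
abbrev czero {B X : Type} [TopologicalSpace B] (σ : Bun B) (c : Raw X) : Raw (B × X) :=
  ⟨c.V, c.W.prod (σ.W.hom c.W), {z | (z.1.2, z.2) ∈ c.O},
    fun z => (c.p (z.1.2, z.2)).prodMap (Bun.conj (σ.p z.1.1) (c.p (z.1.2, z.2))),
    fun z => (c.s (z.1.2, z.2), 0)⟩

/-- The geometry of real projective space. -/
def S_D1 : Prop :=
  ∀ N m : ℕ, (∃ (S : Type) (_ : TopologicalSpace S) (_ : CompactSpace S),
      Nonempty (Cov S (sg N m))) ∧ (sg N m).Iso (dual (sg N m)) ∧
    (1 ≤ m → m ≤ N → Nonempty (RP N m))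

variable [Fact Core]

/-- The Euler class of the tautological bundle. -/
def vv (N m : ℕ) : h (RP N m) := eu (sg N m)

section

variable {B : Type} [TopologicalSpace B] [CompactSpace B] [T2Space B]

/-- The ring generated by the coefficients of the group law and `v`. -/
def AA (a : ℕ → ℕ → UU) (v : h B) : Subring (h B) :=
  Subring.closure (insert v (range fun q : ℕ × ℕ => toU B (a q.1 q.2)))

/-- The cross product. -/
abbrev cr {X : Type} [TopologicalSpace X] (c : h B) (y : h X) : h (B × X) :=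
  act ContinuousMap.fst c (pull ContinuousMap.snd y)

/-- Sums of cross products of elements of `AA` and of elements of degree above `d`. -/
def Hi (a : ℕ → ℕ → UU) (v : h B) (X : Type) [TopologicalSpace X] (d : ℤ) :
    AddSubgroup (h (B × X)) :=
  AddSubgroup.closure {w | ∃ c ∈ AA a v, ∃ e > d, ∃ y : h X, IsDeg e y ∧ w = cr c y}

end

/-- The division lemma. -/
def S_D2 : Prop :=
  ∀ a, IsFGL a → ∀ (X : Type) [TopologicalSpace X] [T2Space X] [LocallyCompactSpace X] (N m : ℕ),
    m + 2 ≤ N → ∀ y : h (RP N (m + 2) × X), act ContinuousMap.fst (vv N (m + 2)) y = 0 →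
    ∃ y' : h X, pull ((RP.incl N (Nat.le_add_right m 2)).prodMap (ContinuousMap.id X)) y =
      cr (tw (cf (toU (RP N m)) a) (vv N m)) y'

/-- The descent on the exponent. -/
def S_D3 : Prop :=
  ∀ a, IsFGL a → ∀ (X : Type) [TopologicalSpace X] [T2Space X] [LocallyCompactSpace X]
    (R : AddSubgroup (h X)), (∀ i j, ∀ x ∈ R, act (toPt X) (a i j) x ∈ R) →
    (∀ d, ∀ x ∈ R, part d x ∈ R) → (∀ x : h X, x + x ∈ R) → ∀ d : ℤ,
    (∀ e > d, ∀ x, IsDeg e x → x ∈ R) → ∀ (N k : ℕ), 2 * k + 1 ≤ N → ∀ (b : RP N 1)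
    (z : h (RP N (2 * k + 1) × X)),
    act ContinuousMap.fst (vv N (2 * k + 1) ^ k) z ∈ Hi a (vv N (2 * k + 1)) X d →
    part d (pull (slice X (RP.incl N (Nat.le_add_left 1 (2 * k)) b)) z) ∈ R

/-- The Euler class of the bundle of homomorphisms from a line bundle. -/
def S_D4 : Prop :=
  ∀ a, IsFGL a → ∀ {B K : Type} [TopologicalSpace B] [CompactSpace B] [T2Space B]
    [TopologicalSpace K] [CompactSpace K] [T2Space K] (σ : Bun B) (ξ : Bun K) (k : ℕ), σ.Rk 1 →
    ξ.Rk k → eu ((σ.pull ContinuousMap.fst).hom (ξ.pull ContinuousMap.snd)) -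
      cr (eu (dual σ) ^ k) (1 : h K) ∈ Hi a (eu (dual σ)) K 0

/-- The quadratic construction. -/
def S_D5 : Prop :=
  ∀ {S B X : Type} [TopologicalSpace S] [CompactSpace S] [TopologicalSpace B] [CompactSpace B]
    [T2Space B] [TopologicalSpace X] [T2Space X] (σ : Bun B) (_ : Cov S σ) (c : Raw X), c.Good →
    (czero σ c).Good ∧ ∃ P : h (B × X),
      eul ((σ.pull ContinuousMap.fst).hom (Bun.triv (B × X) c.V)) P = cls (czero σ c) ∧
      ∀ b, pull (slice X b) P = prod (ContinuousMap.id X) (ContinuousMap.id X) (cls c) (cls c)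

/-- The class on the zero section. -/
def S_D6 : Prop :=
  ∀ a, IsFGL a → ∀ {B X : Type} [TopologicalSpace B] [CompactSpace B] [T2Space B]
    [TopologicalSpace X] [T2Space X] [LocallyCompactSpace X] (σ : Bun B) (c : Raw X) (k : ℕ)
    (d : ℤ), σ.Rk 1 → c.Good → (czero σ c).Good → (∀ z ∈ c.O, rk (c.p z) = k) →
    (k : ℤ) = d + c.V.dim →
    cls (czero σ c) - cr (eu (dual σ) ^ k) (cls c) ∈ Hi a (eu (dual σ)) X d

end

end Pool.Agent.MP_826def_gt.BD
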